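import Mathlib

/-!
# Spaces with a separating family of open and closed sets
-/

set_option autoImplicit false

universe u v

namespace Pool.Agent.V7H82.ZR

open TopologicalSpace Set
open scoped Topology

variable {X : Type u} {K : Type v} (m : X → K → Prop)

/-- The topology in which the sets `{V | m V x}` are open and closed. -/
def pt : TopologicalSpace X :=
  generateFrom {U | ∃ x : K, U = {V | m V x} ∨ U = {V | ¬ m V x}}

variable {m}

/-- The basic open sets. -/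
theorem pt_basic {O : Set X} (hO : IsOpen[pt m] O) {V : X} (hV : V ∈ O) :
    ∃ A N : Set K, A.Finite ∧ N.Finite ∧ (∀ x ∈ A, m V x) ∧ (∀ x ∈ N, ¬ m V x) ∧
      ∀ V', (∀ x ∈ A, m V' x) → (∀ x ∈ N, ¬ m V' x) → V' ∈ O := by
  have hO' : GenerateOpen {U | ∃ x : K, U = {V | m V x} ∨ U = {V | ¬ m V x}} O := hO
  clear hO
  induction hO' with
  | basic U hU =>
    obtain ⟨x, rfl | rfl⟩ := hU
    · exact ⟨{x}, ∅, finite_singleton _, finite_empty, fun y hy => by
        rw [mem_singleton_iff.1 hy]; exact hV, fun y hy => hy.elim, fun V' h _ => h x rfl⟩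
    · exact ⟨∅, {x}, finite_empty, finite_singleton _, fun y hy => hy.elim, fun y hy => by
        rw [mem_singleton_iff.1 hy]; exact hV, fun V' _ h => h x rfl⟩
  | univ => exact ⟨∅, ∅, finite_empty, finite_empty, fun y hy => hy.elim, fun y hy => hy.elim,
      fun _ _ _ => trivial⟩
  | inter s t hs ht ihs iht =>
    obtain ⟨A, N, hA, hN, h1, h2, h3⟩ := ihs hV.1
    obtain ⟨A', N', hA', hN', h1', h2', h3'⟩ := iht hV.2
    refine ⟨A ∪ A', N ∪ N', hA.union hA', hN.union hN', ?_, ?_, ?_⟩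
    · rintro x (hx | hx)
      · exact h1 x hx
      · exact h1' x hx
    · rintro x (hx | hx)
      · exact h2 x hx
      · exact h2' x hx
    · intro V' h4 h5
      exact ⟨h3 V' (fun x hx => h4 x (Or.inl hx)) fun x hx => h5 x (Or.inl hx),
        h3' V' (fun x hx => h4 x (Or.inr hx)) fun x hx => h5 x (Or.inr hx)⟩
  | sUnion S hS ih =>
    obtain ⟨s, hs, hVs⟩ := hV
    obtain ⟨A, N, hA, hN, h1, h2, h3⟩ := ih s hs hVs
    exact ⟨A, N, hA, hN, h1, h2, fun V' h4 h5 => ⟨s, hs, h3 V' h4 h5⟩⟩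

theorem pt_isOpen (x : K) : IsOpen[pt m] {V | m V x} ∧ IsOpen[pt m] {V | ¬ m V x} :=
  ⟨isOpen_generateFrom_of_mem ⟨x, Or.inl rfl⟩, isOpen_generateFrom_of_mem ⟨x, Or.inr rfl⟩⟩

/-- The basic sets are open. -/
theorem pt_isOpen_basic {A N : Set K} (hA : A.Finite) (hN : N.Finite) :
    IsOpen[pt m] {V | (∀ x ∈ A, m V x) ∧ ∀ x ∈ N, ¬ m V x} := by
  let _ : TopologicalSpace X := pt m
  have h1 : {V : X | (∀ x ∈ A, m V x) ∧ ∀ x ∈ N, ¬ m V x} =
      (⋂ x ∈ A, {V | m V x}) ∩ ⋂ x ∈ N, {V | ¬ m V x} := by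
    ext V
    simp
  rw [h1]
  exact (hA.isOpen_biInter fun x _ => (pt_isOpen x).1).inter
    (hN.isOpen_biInter fun x _ => (pt_isOpen x).2)

/-- A criterion for nowhere dense sets. -/
theorem pt_nowhereDense {S : Set X} (h : ∀ (V : X) (A N : Set K), A.Finite → N.Finite →
    (∀ x ∈ A, m V x) → (∀ x ∈ N, ¬ m V x) → ∃ (W : X) (A' N' : Set K), A'.Finite ∧ N'.Finite ∧
      (∀ x ∈ A ∪ A', m W x) ∧ (∀ x ∈ N ∪ N', ¬ m W x) ∧
      ∀ V', (∀ x ∈ A', m V' x) → (∀ x ∈ N', ¬ m V' x) → V' ∉ S) :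
    @IsNowhereDense X (pt m) S := by
  let _ : TopologicalSpace X := pt m
  rw [IsNowhereDense, Set.eq_empty_iff_forall_notMem]
  intro V hV
  obtain ⟨A, N, hA, hN, h1, h2, h3⟩ := pt_basic isOpen_interior hV
  obtain ⟨W, A', N', hA', hN', h4, h5, h6⟩ := h V A N hA hN h1 h2
  have hW : W ∈ interior (closure S) := h3 W (fun x hx => h4 x (Or.inl hx))
    fun x hx => h5 x (Or.inl hx)
  have hWc : W ∈ closure S := interior_subset hW
  have hO := pt_isOpen_basic (m := m) hA' hN'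
  obtain ⟨V', hV', hV'S⟩ := mem_closure_iff.1 hWc _ hO
    ⟨fun x hx => h4 x (Or.inr hx), fun x hx => h5 x (Or.inr hx)⟩
  exact h6 V' hV'.1 hV'.2 hV'S

/-- The Hausdorff property. -/
theorem pt_t2 (h : ∀ V W : X, (∀ x, m V x ↔ m W x) → V = W) : @T2Space X (pt m) := by
  let _ : TopologicalSpace X := pt m
  refine ⟨fun V W hVW => ?_⟩
  have h1 : ∃ x, ¬ (m V x ↔ m W x) := by
    by_contra h2
    push Not at h2
    exact hVW (h V W h2)
  obtain ⟨x, hx⟩ := h1
  by_cases hVx : m V x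
  · exact ⟨_, _, (pt_isOpen (m := m) x).1, (pt_isOpen (m := m) x).2, hVx,
      fun h2 => hx ⟨fun _ => h2, fun _ => hVx⟩, Set.disjoint_left.2 fun U h2 h3 => h3 h2⟩
  · refine ⟨_, _, (pt_isOpen (m := m) x).2, (pt_isOpen (m := m) x).1, hVx, ?_,
      Set.disjoint_left.2 fun U h2 h3 => h2 h3⟩
    by_contra h2
    exact hx ⟨fun h3 => absurd h3 hVx, fun h3 => absurd h3 h2⟩

/-- Compactness. -/
theorem pt_compact (h : ∀ F : Ultrafilter X, ∃ V : X, ∀ x, m V x ↔ {V' | m V' x} ∈ F) :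
    @CompactSpace X (pt m) := by
  let _ : TopologicalSpace X := pt m
  refine ⟨isCompact_iff_ultrafilter_le_nhds.2 fun F _ => ?_⟩
  obtain ⟨V, hV⟩ := h F
  refine ⟨V, trivial, ?_⟩
  rw [show nhds V = ⨅ s ∈ {s | V ∈ s ∧ s ∈ {U | ∃ x : K, U = {V | m V x} ∨ U = {V | ¬ m V x}}},
    Filter.principal s from nhds_generateFrom]
  refine le_iInf₂ fun s hs => ?_
  rw [Filter.le_principal_iff]
  obtain ⟨hVs, x, rfl | rfl⟩ := hs
  · exact (hV x).1 hVs
  · have h1 : {V' | m V' x} ∉ F := fun h2 => hVs ((hV x).2 h2)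
    exact (Ultrafilter.compl_mem_iff_notMem).2 h1

end Pool.Agent.V7H82.ZR
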