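import Pool.Agent.V7H82.ZR.Log2
import Pool.Agent.V7H82.ZR.Topo

/-!
# The valuation rings with a given centre: compactness, nowhere density, meagreness
-/

set_option autoImplicit false

universe u v

namespace Pool.Agent.V7H82.ZR

open IsLocalRing Pool.Agent.W418.LU2 Pool.Agent.TH188.QS

/-- The valuation rings of `K` with centre `𝔭` on `Spec B`. -/
def Cen {K : Type u} [Field K] (B : Subring K) (𝔭 : Ideal B) : Type u :=
  {V : ValuationSubring K // B ≤ V.toSubring ∧ ∀ b : B, b ∈ 𝔭 ↔ V.valuation (b : K) < 1}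

/-- `x` is in the valuation ring. -/
def mem {K : Type u} [Field K] {B : Subring K} {𝔭 : Ideal B} (V : Cen B 𝔭) (x : K) : Prop :=
  x ∈ V.1

variable {K : Type u} [Field K] {B : Subring K} {𝔭 : Ideal B}

theorem cen_t2 : @T2Space (Cen B 𝔭) (pt mem) := by
  refine pt_t2 fun V W h => ?_
  apply Subtype.ext
  ext x
  exact h x

/-- The limit of an ultrafilter. -/
theorem cen_compact : @CompactSpace (Cen B 𝔭) (pt mem) := by
  classical
  refine pt_compact fun F => ?_
  have hall : ∀ {P : Cen B 𝔭 → Prop}, (∀ V, P V) → {V | P V} ∈ F := fun h =>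
    Filter.univ_mem' h
  let W : ValuationSubring K :=
    { carrier := {x | {V : Cen B 𝔭 | mem V x} ∈ F}
      mul_mem' := fun {a b} ha hb => by
        have h1 := Filter.inter_mem ha hb
        refine Filter.mem_of_superset h1 ?_
        rintro V ⟨h2, h3⟩
        exact V.1.mul_mem _ _ h2 h3
      one_mem' := hall fun V => V.1.one_mem
      add_mem' := fun {a b} ha hb => by
        have h1 := Filter.inter_mem ha hb
        refine Filter.mem_of_superset h1 ?_
        rintro V ⟨h2, h3⟩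
        exact V.1.add_mem _ _ h2 h3
      zero_mem' := hall fun V => V.1.zero_mem
      neg_mem' := fun {a} ha => by
        refine Filter.mem_of_superset ha ?_
        intro V h2
        exact V.1.neg_mem _ h2
      mem_or_inv_mem' := fun x => by
        have h1 : {V : Cen B 𝔭 | mem V x} ∪ {V : Cen B 𝔭 | mem V x⁻¹} ∈ F :=
          hall fun V => V.1.mem_or_inv_mem x
        exact (Ultrafilter.union_mem_iff).1 h1 }
  have hW : ∀ x, x ∈ W ↔ {V : Cen B 𝔭 | mem V x} ∈ F := fun x => Iff.rfl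
  have hBW : B ≤ W.toSubring := fun b hb => hall fun V => V.2.1 hb
  have hcen : ∀ b : B, b ∈ 𝔭 ↔ W.valuation (b : K) < 1 := by
    intro b
    rw [← nu_iff]
    constructor
    · rintro hb ⟨h0, h1⟩
      have h2 : {V : Cen B 𝔭 | mem V (b : K)⁻¹} ∈ F := h1
      obtain ⟨V, hV⟩ := Ultrafilter.nonempty_of_mem h2
      have h3 := (V.2.2 b).1 hb
      rw [← nu_iff] at h3
      exact h3 ⟨h0, hV⟩
    · intro h
      by_contra hb
      have h1 : ∀ V : Cen B 𝔭, (b : K) ≠ 0 ∧ mem V (b : K)⁻¹ := by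
        intro V
        have h2 : ¬ V.1.valuation (b : K) < 1 := fun h3 => hb ((V.2.2 b).2 h3)
        rw [← nu_iff] at h2
        exact not_not.1 h2
      obtain ⟨V, -⟩ := Ultrafilter.nonempty_of_mem (F.univ_mem)
      exact h ⟨(h1 V).1, hall fun V => (h1 V).2⟩
  exact ⟨⟨W, hBW, hcen⟩, fun x => Iff.rfl⟩

variable {R : Type u} [CommRing R] {ρ : R →+* K} {T : Set K}

/-- The valuation rings without solution are nowhere dense. -/
theorem cen_nowhereDense (hR : HJ R) (h : Ess ρ T B) {D I₀ : Ideal B} (hD : D ≠ ⊥)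
    (hI : I₀ ≠ ⊥) : @IsNowhereDense (Cen B 𝔭) (pt mem)
      {V | ¬ ∃ I₁ : Ideal B, I₁ ≠ ⊥ ∧ LogDesing V.1 B D (I₀ * I₁)} := by
  refine pt_nowhereDense fun V A N hA hN h1 h2 => ?_
  obtain ⟨W, X', N', hBW, hcen, hX', hN', h3, h4, h5⟩ := h.dense hR V.2.1 V.2.2 hA hN h1 h2 hD hI
  refine ⟨⟨W, hBW, hcen⟩, X', N', hX', hN', h3, h4, fun V' h6 h7 h8 => ?_⟩
  exact h8 (h5 V'.1 V'.2.1 h6 h7)

/-- There are valuation rings with a given centre. -/
theorem cen_nonempty [h𝔭 : 𝔭.IsPrime] : Nonempty (Cen B 𝔭) := by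
  have hu : ∀ y : 𝔭.primeCompl, IsUnit (B.subtype y) := by
    rintro ⟨y, hy⟩
    refine isUnit_iff_ne_zero.2 fun h => hy ?_
    have h1 : y = 0 := Subtype.ext h
    rw [h1]
    exact 𝔭.zero_mem
  let f : Localization.AtPrime 𝔭 →+* K := IsLocalization.lift (M := 𝔭.primeCompl) hu
  have hf : ∀ b : B, f (algebraMap B _ b) = b := fun b => IsLocalization.lift_eq _ _
  obtain ⟨W, hW, hloc⟩ := IsLocalRing.exists_factor_valuationRing f
  have hBW : B ≤ W.toSubring := by
    intro b hb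
    have h1 := hW (algebraMap B _ ⟨b, hb⟩)
    rw [hf] at h1
    exact h1
  refine ⟨⟨W, hBW, fun b => ?_⟩⟩
  have h1 : b ∈ 𝔭 ↔ ¬ IsUnit (algebraMap B (Localization.AtPrime 𝔭) b) := by
    rw [← mem_nonunits_iff, ← mem_maximalIdeal]
    exact (IsLocalization.AtPrime.to_map_mem_maximal_iff (Localization.AtPrime 𝔭) 𝔭 b).symm
  rw [h1, ← nu_iff]
  refine not_congr ?_
  constructor
  · intro h2
    have h3 := h2.map (f.codRestrict W.toSubring hW)
    obtain ⟨y, hy⟩ := isUnit_iff_exists_inv.1 h3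
    have h4 : (b : K) * (y : K) = 1 := by
      have h5 := congrArg Subtype.val hy
      have h6 : f (algebraMap B _ b) * (y : K) = 1 := h5
      rwa [hf] at h6
    refine ⟨left_ne_zero_of_mul_eq_one h4, ?_⟩
    rw [← eq_inv_of_mul_eq_one_right h4]
    exact y.2
  · rintro ⟨h2, h3⟩
    apply hloc.map_nonunit
    refine isUnit_iff_exists_inv.2 ⟨⟨(b : K)⁻¹, h3⟩, Subtype.ext ?_⟩
    change f (algebraMap B _ b) * (b : K)⁻¹ = 1
    rw [hf, mul_inv_cancel₀ h2]

/-- The valuation rings which are not log uniformizable form a meagre set. -/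
theorem cen_meagre (hR : HJ R) [Countable R] (h : Ess ρ T B) :
    @IsMeagre (Cen B 𝔭) (pt mem) {V | ¬ LogUnif V.1 B} := by
  let _ : TopologicalSpace (Cen B 𝔭) := pt mem
  have hnoe := h.noeth hR
  have hc : Countable B := h.countable
  have hcI : Countable (Ideal B) := by
    have h1 : Function.Surjective (fun s : Finset B => Ideal.span (s : Set B)) := by
      intro I
      obtain ⟨s, hs⟩ := (IsNoetherian.noetherian I : I.FG)
      exact ⟨s, hs⟩
    exact h1.countable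
  have h1 : {V : Cen B 𝔭 | ¬ LogUnif V.1 B} ⊆ ⋃ q : Ideal B × Ideal B,
      {V | ¬ (q.1 ≠ ⊥ → q.2 ≠ ⊥ → ∃ I₁ : Ideal B, I₁ ≠ ⊥ ∧ LogDesing V.1 B q.1 (q.2 * I₁))} := by
    intro V hV
    by_contra h2
    apply hV
    intro D I₀ hD hI
    by_contra h3
    apply h2
    rw [Set.mem_iUnion]
    exact ⟨(D, I₀), fun h4 => h3 (h4 hD hI)⟩
  refine IsMeagre.mono h1 (isMeagre_iUnion fun q => ?_)
  by_cases hq : q.1 ≠ ⊥ ∧ q.2 ≠ ⊥
  · refine IsMeagre.mono ?_ (cen_nowhereDense (𝔭 := 𝔭) hR h hq.1 hq.2).isMeagre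
    intro V hV hV2
    exact hV fun _ _ => hV2
  · have h2 : {V : Cen B 𝔭 | ¬ (q.1 ≠ ⊥ → q.2 ≠ ⊥ →
        ∃ I₁ : Ideal B, I₁ ≠ ⊥ ∧ LogDesing V.1 B q.1 (q.2 * I₁))} = ∅ := by
      rw [Set.eq_empty_iff_forall_notMem]
      intro V hV
      exact hV fun h3 h4 => absurd ⟨h3, h4⟩ hq
    rw [h2]
    exact IsMeagre.empty

end Pool.Agent.V7H82.ZR
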