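import Pool.Agent.V7H82.ZR.Near
import Pool.Agent.Y562.NN.DVR

/-!
# Discrete valuation rings near a valuation ring
-/

set_option autoImplicit false

universe u v

namespace Pool.Agent.V7H82.ZR

open IsLocalRing Pool.Agent.W418.LU2 Pool.Agent.TH188.QS

/-- A subring all of whose fractions fill the field. -/
lemma isFractionRing_of_fr {K : Type u} [Field K] {B : Subring K} (h : ∀ z : K, Fr B z) :
    IsFractionRing B K :=
  { map_units := by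
      rintro ⟨y, hy⟩
      have h1 : (y : K) ≠ 0 := fun h2 => nonZeroDivisors.ne_zero hy (Subtype.ext h2)
      exact isUnit_iff_ne_zero.2 h1
    surj := by
      intro z
      obtain ⟨a, ha, b, hb, hb0, rfl⟩ := h z
      have h1 : (⟨b, hb⟩ : B) ≠ 0 := fun h2 => hb0 (congrArg Subtype.val h2)
      refine ⟨(⟨a, ha⟩, ⟨⟨b, hb⟩, mem_nonZeroDivisors_of_ne_zero h1⟩), ?_⟩
      change a * b⁻¹ * b = a
      rw [mul_assoc, inv_mul_cancel₀ hb0, mul_one]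
    exists_of_eq := by
      intro a b hab
      refine ⟨1, ?_⟩
      have h1 : a = b := Subtype.ext hab
      rw [h1] }

/-- The discrete valuation rings of rank at most one are dense for the patch topology. -/
theorem exists_near {K : Type u} [Field K] {B : Subring K} [IsNoetherianRing B]
    (hBK : ∀ z : K, Fr B z) {V : ValuationSubring K} (hBV : B ≤ V.toSubring) {X N : Set K}
    (hX : X.Finite) (hN : N.Finite) (hXV : ∀ z ∈ X, z ∈ V) (hNV : ∀ z ∈ N, z ∉ V) :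
    ∃ W : ValuationSubring K, B ≤ W.toSubring ∧ (∀ z ∈ X, z ∈ W) ∧ (∀ z ∈ N, z ∉ W) ∧
      (W = ⊤ ∨ IsDiscreteValuationRing W) := by
  classical
  rcases N.eq_empty_or_nonempty with rfl | ⟨y₀, hy₀⟩
  · exact ⟨⊤, fun _ _ => trivial, fun _ _ => trivial, fun z hz => hz.elim, Or.inl rfl⟩
  have hN0 : ∀ z ∈ N, z ≠ 0 := by
    rintro z hz rfl
    exact hNV 0 hz V.zero_mem
  have hNi : ∀ z ∈ N, z⁻¹ ∈ V := fun z hz => (V.mem_or_inv_mem z).resolve_left (hNV z hz)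
  let N' : Set K := (fun z => z⁻¹) '' N
  have hN'V : ∀ z ∈ N', z ∈ V := by
    rintro _ ⟨z, hz, rfl⟩
    exact hNi z hz
  set B₁ := Subring.closure ((B : Set K) ∪ (X ∪ N')) with hB₁
  have hBB₁ : B ≤ B₁ := fun b hb => Subring.subset_closure (Or.inl hb)
  have hB₁V : B₁ ≤ V.toSubring := cl_le hBV (by
    rintro z (hz | hz)
    · exact hXV z hz
    · exact hN'V z hz)
  have hnoe₁ : IsNoetherianRing B₁ := noeth_cl (hX.union (hN.image _))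
  obtain ⟨𝔭, h𝔭, hmem, -⟩ := lo_loc (loc_V V) hB₁V
  have hinv : ∀ z ∈ N, ∃ h : z⁻¹ ∈ B₁, (⟨z⁻¹, h⟩ : B₁) ∈ 𝔭 := by
    intro z hz
    have h1 : z⁻¹ ∈ B₁ := Subring.subset_closure (Or.inr (Or.inr ⟨z, hz, rfl⟩))
    refine ⟨h1, ?_⟩
    rw [hmem]
    rintro ⟨-, h2⟩
    apply hNV z hz
    have h3 : ((⟨z⁻¹, h1⟩ : B₁) : K)⁻¹ = z := inv_inv z
    rw [h3] at h2
    exact h2
  have h𝔭0 : 𝔭 ≠ ⊥ := by
    intro h0
    obtain ⟨h1, h2⟩ := hinv y₀ hy₀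
    rw [h0, Ideal.mem_bot] at h2
    exact inv_ne_zero (hN0 y₀ hy₀) (congrArg Subtype.val h2)
  obtain ⟨S, hS⟩ := (IsNoetherian.noetherian 𝔭 : 𝔭.FG)
  have hS' : Ideal.span (S : Set B₁) = 𝔭 := hS
  obtain ⟨f, hfS, hf0, hf⟩ := exists_gen V hB₁V S.finite_toSet (by rw [hS']; exact h𝔭0)
  have hf𝔭 : f ∈ 𝔭 := by rw [← hS']; exact Ideal.subset_span hfS
  have hf0' : (f : K) ≠ 0 := fun h => hf0 (Subtype.ext h)
  let T : Set K := (fun a : B₁ => (a : K) / f) '' S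
  set B₂ := Subring.closure ((B₁ : Set K) ∪ T) with hB₂
  have hBB₂ : B₁ ≤ B₂ := fun b hb => Subring.subset_closure (Or.inl hb)
  have hB₂V : B₂ ≤ V.toSubring := cl_le hB₁V (by
    rintro _ ⟨a, ha, rfl⟩
    exact hf a (Ideal.subset_span ha))
  have hnoe₂ : IsNoetherianRing B₂ := noeth_cl (S.finite_toSet.image _)
  have hdiv : ∀ a ∈ 𝔭, (a : K) / f ∈ B₂ := by
    intro a ha
    rw [← hS'] at ha
    exact gen_div hBB₂ (fun a ha => Subring.subset_closure (Or.inr ⟨a, ha, rfl⟩)) ha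
  obtain ⟨𝔭₂, h𝔭₂, hmem₂, -⟩ := lo_loc (loc_V V) hB₂V
  let f₂ : B₂ := ⟨f, hBB₂ f.2⟩
  have hf₂ : f₂ ∈ 𝔭₂ := by
    rw [hmem₂]
    exact (hmem f).1 hf𝔭
  have hle : Ideal.span {f₂} ≤ 𝔭₂ := by
    rw [Ideal.span_singleton_le_iff_mem]
    exact hf₂
  obtain ⟨𝔮, h𝔮, h𝔮𝔭⟩ := Ideal.exists_minimalPrimes_le hle
  have h𝔮p : 𝔮.IsPrime := h𝔮.1.1
  have hf𝔮 : f₂ ∈ 𝔮 := h𝔮.1.2 (Ideal.mem_span_singleton_self _)
  have h𝔮0 : 𝔮 ≠ ⊥ := by
    rintro rfl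
    rw [Ideal.mem_bot] at hf𝔮
    exact hf0' (congrArg Subtype.val hf𝔮)
  have h𝔮h : 𝔮.height ≤ 1 := Ideal.height_le_one_of_isPrincipal_of_mem_minimalPrimes _ 𝔮 h𝔮
  have hfr : IsFractionRing B₂ K := isFractionRing_of_fr fun z => by
    obtain ⟨a, ha, b, hb, hb0, rfl⟩ := hBK z
    exact ⟨a, hBB₂ (hBB₁ ha), b, hBB₂ (hBB₁ hb), hb0, rfl⟩
  obtain ⟨W, hW, hW1, hW2, -⟩ := Pool.Agent.Y562.NN.exists_dvr B₂ K K 𝔮 h𝔮0 h𝔮h
  have hB₂W : B₂ ≤ W.toSubring := by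
    intro b hb
    change b ∈ W
    rw [← W.valuation_le_one_iff]
    by_cases h1 : (⟨b, hb⟩ : B₂) ∈ 𝔮
    · exact (hW1 _ h1).le
    · exact (hW2 _ h1).le
  refine ⟨W, fun b hb => hB₂W (hBB₂ (hBB₁ hb)), fun z hz => hB₂W (hBB₂
    (Subring.subset_closure (Or.inr (Or.inl hz)))), fun z hz hzW => ?_, Or.inr hW⟩
  obtain ⟨h1, h2⟩ := hinv z hz
  have h3 := hdiv _ h2
  have h4 : (⟨z⁻¹, hBB₂ h1⟩ : B₂) ∈ 𝔮 := by
    have h5 : (⟨z⁻¹, hBB₂ h1⟩ : B₂) = ⟨z⁻¹ / f, h3⟩ * f₂ := by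
      apply Subtype.ext
      change z⁻¹ = z⁻¹ / (f : K) * f
      rw [div_mul_cancel₀ _ hf0']
    rw [h5]
    exact 𝔮.mul_mem_left _ hf𝔮
  have h5 := hW1 _ h4
  change W.valuation z⁻¹ < 1 at h5
  have h6 := (W.valuation_le_one_iff z).2 hzW
  rw [map_inv₀] at h5
  have h7 : 1 < W.valuation z := by
    have h8 : (0 : W.ValueGroup) < W.valuation z := zero_lt_iff.2 ((map_ne_zero _).2 (hN0 z hz))
    exact (inv_lt_one₀ h8).1 h5
  exact absurd h6 (not_le.2 h7)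

end Pool.Agent.V7H82.ZR
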