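import Pool.Agent.V7H82.ZR.Log

/-!
# Extension of the field
-/

set_option autoImplicit false

universe u v

namespace Pool.Agent.V7H82.ZR

open IsLocalRing Pool.Agent.W418.LU2 Pool.Agent.TH188.QS

variable {L K : Type u} [Field L] [Field K] (j : L →+* K) (W : ValuationSubring K)

/-- The local rings at the centre. -/
lemma lo_map (S : Subring L) :
    (lo (W.comap j).toSubring S).map j = lo W.toSubring (S.map j) := by
  ext z
  constructor
  · rintro ⟨_, ⟨a, ha, b, hb, hb0, hbW, rfl⟩, rfl⟩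
    refine ⟨j a, ⟨a, ha, rfl⟩, j b, ⟨b, hb, rfl⟩, (map_ne_zero j).2 hb0, ?_, ?_⟩
    · rw [← map_inv₀]
      exact hbW
    · rw [map_mul, map_inv₀]
  · rintro ⟨_, ⟨a, ha, rfl⟩, _, ⟨b, hb, rfl⟩, hb0, hbW, rfl⟩
    refine ⟨a * b⁻¹, ⟨a, ha, b, hb, (map_ne_zero j).1 hb0, ?_, rfl⟩, ?_⟩
    · change j b⁻¹ ∈ W
      rw [map_inv₀]
      exact hbW
    · rw [map_mul, map_inv₀]

lemma mo_map {ι : Type} [Fintype ι] (x : ι → L) (δ : ι → ℤ) :
    j (mo x δ) = mo (fun i => j (x i)) δ := by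
  unfold mo
  rw [map_prod]
  exact Finset.prod_congr rfl fun i _ => map_zpow₀ j _ _

lemma pmon_map {ι : Type} [Fintype ι] {x : ι → L} {P : Subring L} {g : L} (h : PMon P x g) :
    PMon (P.map j) (fun i => j (x i)) (j g) := by
  obtain ⟨u, hu0, hu1, hu2, δ, rfl⟩ := h
  refine ⟨j u, (map_ne_zero j).2 hu0, ⟨u, hu1, rfl⟩, ⟨u⁻¹, hu2, map_inv₀ j u⟩, δ, ?_⟩
  rw [map_mul, mo_map]

variable {j W}

lemma regP_map {ι : Type} [Fintype ι] {x : ι → L} {P : Subring L}
    (h : RegP (W.comap j).toSubring P x) : RegP W.toSubring (P.map j) (fun i => j (x i)) := by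
  have hreg := h.reg
  let e : P ≃+* P.map j := P.equivMapOfInjective j j.injective
  have he : ∀ p : P, ((e p : P.map j) : K) = j p := fun p => rfl
  have hreg' : IsRegularLocalRing (P.map j) := IsRegularLocalRing.of_ringEquiv e
  have hmax : ∀ p : P, e p ∈ maximalIdeal (P.map j) ↔ p ∈ maximalIdeal P := by
    intro p
    rw [mem_maximalIdeal, mem_maximalIdeal, mem_nonunits_iff, mem_nonunits_iff]
    exact not_congr (MulEquiv.isUnit_map e)
  have hmap : (maximalIdeal P).map (e : P →+* P.map j) = maximalIdeal (P.map j) := by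
    apply le_antisymm
    · rw [Ideal.map_le_iff_le_comap]
      intro p hp
      exact (hmax p).2 hp
    · intro q hq
      obtain ⟨p, rfl⟩ := e.surjective q
      exact Ideal.mem_map_of_mem (e : P →+* P.map j) ((hmax p).1 hq)
  refine ⟨?_, fun i => (map_ne_zero j).2 (h.ne i), fun i => ⟨x i, h.mem i, rfl⟩, hreg', ?_, ?_⟩
  · rintro _ ⟨p, hp, rfl⟩
    exact h.PA hp
  · rintro _ ⟨p, hp, rfl⟩ h0 h1
    have h2 : p⁻¹ ∈ P := h.inv p hp ((map_ne_zero j).1 h0) (by
      change j p⁻¹ ∈ W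
      rw [map_inv₀]
      exact h1)
    exact ⟨p⁻¹, h2, map_inv₀ j p⟩
  · intro c hc hs i
    have hx : ∀ i, (⟨j (x i), ⟨x i, h.mem i, rfl⟩⟩ : P.map j) = e ⟨x i, h.mem i⟩ := fun i => rfl
    let c' : ι → P := fun i => e.symm (c i)
    have hcc : ∀ i, c i = e (c' i) := fun i => (e.apply_symm_apply _).symm
    have h1 := h.ind c' (fun i hi => by
      have h2 := hc i (fun h3 => hi ((hmax _).1 h3))
      change e.symm (c i) = 0
      rw [h2, map_zero]) (by
      have h3 : (∑ i, c i * (⟨j (x i), ⟨x i, h.mem i, rfl⟩⟩ : P.map j)) =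
          e (∑ i, c' i * ⟨x i, h.mem i⟩) := by
        rw [map_sum]
        refine Finset.sum_congr rfl fun i _ => ?_
        rw [map_mul, ← hcc, ← hx]
      rw [h3, ← hmap, ← Ideal.map_pow] at hs
      have h4 := Ideal.comap_map_of_bijective (e : P →+* P.map j) e.bijective
        (I := maximalIdeal P ^ 2)
      rw [← h4]
      exact hs) i
    rw [hcc]
    exact (hmax _).2 h1

theorem DA.map {A : Subring L} {G H : Set L} (h : DA (W.comap j) A G H) :
    DA W (A.map j) (j '' G) (j '' H) := by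
  obtain ⟨ι, _, x, P, g, h1, ⟨hgA, hg0, T, hTf, hT, hP⟩, h3, h4, h5⟩ := h
  refine ⟨ι, inferInstance, fun i => j (x i), P.map j, j g, regP_map h1, ⟨⟨g, hgA, rfl⟩,
    (map_ne_zero j).2 hg0, j '' T, hTf.image _, ?_, ?_⟩, pmon_map j h3, ?_, ?_⟩
  · rintro _ ⟨t, ht, rfl⟩
    refine ⟨(hT t ht).1, t * g, (hT t ht).2, map_mul _ _ _⟩
  · rw [hP, lo_map, RingHom.map_closure, Set.image_union]
    rfl
  · rintro _ ⟨g', hg', rfl⟩
    exact pmon_map j (h4 g' hg')
  · rintro _ ⟨h', hh', rfl⟩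
    exact ⟨h', h5 h' hh', rfl⟩

end Pool.Agent.V7H82.ZR
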