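import Pool.Agent.V7H82.ZR.Ext

/-!
# Valuation rings which are discrete on a finitely generated subfield, near a valuation ring
-/

set_option autoImplicit false

universe u v

namespace Pool.Agent.V7H82.ZR

open IsLocalRing Pool.Agent.W418.LU2 Pool.Agent.TH188.QS

/-- Valuation rings of a subfield extend. -/
theorem exists_extension {K : Type u} [Field K] (L : Subfield K) (W' : ValuationSubring L) :
    ∃ W : ValuationSubring K, W.comap L.subtype = W' := by
  let f : W' →+* K := L.subtype.comp W'.subtype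
  obtain ⟨W, hW, hloc⟩ := IsLocalRing.exists_factor_valuationRing f
  refine ⟨W, ?_⟩
  apply le_antisymm
  · intro z hz
    by_contra h
    have h1 : z⁻¹ ∈ W' := (W'.mem_or_inv_mem z).resolve_left h
    have hz0 : z ≠ 0 := by
      rintro rfl
      exact h W'.zero_mem
    have h2 : IsUnit ((f.codRestrict W.toSubring hW) ⟨z⁻¹, h1⟩) := by
      refine isUnit_iff_exists_inv.2 ⟨⟨(z : K), hz⟩, Subtype.ext ?_⟩
      change ((z⁻¹ : L) : K) * (z : K) = 1
      rw [← L.coe_mul, inv_mul_cancel₀ hz0]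
      rfl
    have h3 : IsUnit (⟨z⁻¹, h1⟩ : W') := hloc.map_nonunit _ h2
    obtain ⟨y, hy⟩ := isUnit_iff_exists_inv.1 h3
    have h4 : z⁻¹ * (y : L) = 1 := congrArg Subtype.val hy
    have h5 : (y : L) = z := by
      rw [← mul_one z, ← h4, mul_inv_cancel_left₀ hz0]
    exact h (by rw [← h5]; exact y.2)
  · intro z hz
    exact hW ⟨z, hz⟩

/-- Valuation rings which are discrete or trivial on a subfield which contains the given elements are dense for the patch
topology. -/
theorem exists_near_gen {K : Type u} [Field K] {B : Subring K} [IsNoetherianRing B]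
    {V : ValuationSubring K} (hBV : B ≤ V.toSubring) {X N : Set K} (hX : X.Finite) (hN : N.Finite)
    (hXV : ∀ z ∈ X, z ∈ V) (hNV : ∀ z ∈ N, z ∉ V) :
    ∃ (L : Subfield K) (W : ValuationSubring K), B ≤ L.toSubring ∧ B ≤ W.toSubring ∧
      (∀ z ∈ X, z ∈ W) ∧ (∀ z ∈ N, z ∉ W) ∧
      (W.comap L.subtype = ⊤ ∨ IsDiscreteValuationRing (W.comap L.subtype)) := by
  classical
  set L := Subfield.closure ((B : Set K) ∪ (X ∪ N)) with hL
  have hBL : B ≤ L.toSubring := fun b hb => Subfield.subset_closure (Or.inl hb)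
  have hXL : ∀ z ∈ X, z ∈ L := fun z hz => Subfield.subset_closure (Or.inr (Or.inl hz))
  have hNL : ∀ z ∈ N, z ∈ L := fun z hz => Subfield.subset_closure (Or.inr (Or.inr hz))
  -- the ring in `L`
  let B' : Subring L := B.comap L.subtype
  let e : B' ≃+* B :=
    { toFun := fun b => ⟨(b : L), b.2⟩
      invFun := fun b => ⟨⟨b, hBL b.2⟩, b.2⟩
      left_inv := fun b => rfl
      right_inv := fun b => rfl
      map_mul' := fun a b => rfl
      map_add' := fun a b => rfl }
  have hnoe' : IsNoetherianRing B' := isNoetherianRing_of_ringEquiv B e.symm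
  let X' : Set L := L.subtype ⁻¹' X
  let N' : Set L := L.subtype ⁻¹' N
  have hX'f : X'.Finite := hX.preimage L.subtype.injective.injOn
  have hN'f : N'.Finite := hN.preimage L.subtype.injective.injOn
  let B₁ : Subring L := Subring.closure ((B' : Set L) ∪ (X' ∪ N'))
  have hnoe₁ : IsNoetherianRing B₁ := noeth_cl (hX'f.union hN'f)
  have hfrL : ∀ z : L, Fr B₁ z := by
    have h1 : ∀ z (hz : z ∈ L), Fr B₁ ⟨z, hz⟩ := by
      intro z hz
      induction hz using Subfield.closure_induction with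
      | mem z hz =>
        rcases hz with hz | hz | hz
        · exact Fr.of_mem (Subring.subset_closure (Or.inl hz))
        · exact Fr.of_mem (Subring.subset_closure (Or.inr (Or.inl hz)))
        · exact Fr.of_mem (Subring.subset_closure (Or.inr (Or.inr hz)))
      | one => exact Fr.of_mem (Subring.one_mem _)
      | add a b ha hb iha ihb =>
        obtain ⟨p, hp, q, hq, hq0, h1⟩ := iha
        obtain ⟨p', hp', q', hq', hq'0, h2⟩ := ihb
        refine ⟨p * q' + p' * q, Subring.add_mem _ (Subring.mul_mem _ hp hq')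
          (Subring.mul_mem _ hp' hq), q * q', Subring.mul_mem _ hq hq', mul_ne_zero hq0 hq'0, ?_⟩
        have h3 : (⟨a + b, Subfield.add_mem _ ha hb⟩ : L) = ⟨a, ha⟩ + ⟨b, hb⟩ := rfl
        rw [h3, h1, h2]
        field_simp
      | neg a ha iha =>
        obtain ⟨p, hp, q, hq, hq0, h1⟩ := iha
        refine ⟨-p, Subring.neg_mem _ hp, q, hq, hq0, ?_⟩
        have h3 : (⟨-a, Subfield.neg_mem _ ha⟩ : L) = -⟨a, ha⟩ := rfl
        rw [h3, h1, neg_mul]
      | inv a ha iha =>
        obtain ⟨p, hp, q, hq, hq0, h1⟩ := iha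
        have h3 : (⟨a⁻¹, Subfield.inv_mem _ ha⟩ : L) = (⟨a, ha⟩ : L)⁻¹ := rfl
        by_cases hp0 : p = 0
        · refine ⟨0, Subring.zero_mem _, 1, Subring.one_mem _, one_ne_zero, ?_⟩
          rw [h3, h1, hp0]
          simp
        · refine ⟨q, hq, p, hp, hp0, ?_⟩
          rw [h3, h1, mul_inv, inv_inv, mul_comm]
      | mul a b ha hb iha ihb =>
        obtain ⟨p, hp, q, hq, hq0, h1⟩ := iha
        obtain ⟨p', hp', q', hq', hq'0, h2⟩ := ihb
        refine ⟨p * p', Subring.mul_mem _ hp hp', q * q', Subring.mul_mem _ hq hq',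
          mul_ne_zero hq0 hq'0, ?_⟩
        have h3 : (⟨a * b, Subfield.mul_mem _ ha hb⟩ : L) = ⟨a, ha⟩ * ⟨b, hb⟩ := rfl
        rw [h3, h1, h2]
        field_simp
    intro z
    exact h1 z z.2
  -- a model inside the valuation ring
  let V' : ValuationSubring L := V.comap L.subtype
  let M : Set L := {z | z ∈ X' ∪ N' ∧ z ∈ V'} ∪ (fun z => z⁻¹) '' {z | z ∈ X' ∪ N' ∧ z⁻¹ ∈ V'}
  have hMf : M.Finite := ((hX'f.union hN'f).subset fun z hz => hz.1).union
    (((hX'f.union hN'f).subset fun z hz => hz.1).image _)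
  have hMV : ∀ z ∈ M, z ∈ V' := by
    rintro _ (hz | ⟨z, hz, rfl⟩)
    · exact hz.2
    · exact hz.2
  let B₂ : Subring L := Subring.closure ((B' : Set L) ∪ M)
  have hB'V : B' ≤ V'.toSubring := fun b hb => hBV hb
  have hB₂V : B₂ ≤ V'.toSubring := cl_le hB'V hMV
  have hnoe₂ : IsNoetherianRing B₂ := noeth_cl hMf
  have hfr₂ : ∀ z : L, Fr B₂ z := by
    have h1 : B₁ ≤ (fr B₂).toSubring := by
      rw [Subring.closure_le]
      rintro z (hz | hz)
      · exact le_fr B₂ (Subring.subset_closure (Or.inl hz))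
      · rcases V'.mem_or_inv_mem z with h2 | h2
        · exact le_fr B₂ (Subring.subset_closure (Or.inr (Or.inl ⟨hz, h2⟩)))
        · have h3 : z⁻¹ ∈ fr B₂ :=
            le_fr B₂ (Subring.subset_closure (Or.inr (Or.inr ⟨z, ⟨hz, h2⟩, rfl⟩)))
          have h4 := (fr B₂).inv_mem h3
          rwa [inv_inv] at h4
    intro z
    obtain ⟨a, ha, b, hb, hb0, rfl⟩ := hfrL z
    have h2 : a * b⁻¹ ∈ fr B₂ := (fr B₂).mul_mem (h1 ha) ((fr B₂).inv_mem (h1 hb))
    obtain ⟨c, hc, hc0, h⟩ := h2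
    exact ⟨_, h, c, hc, hc0, (mul_inv_cancel_right₀ hc0 _).symm⟩
  obtain ⟨W', hB₂W', hXW', hNW', hW'⟩ := exists_near (B := B₂) hfr₂ hB₂V (X := X') (N := N') hX'f
    hN'f (fun z hz => hXV _ hz) (fun z hz => hNV _ hz)
  obtain ⟨W, rfl⟩ := exists_extension L W'
  refine ⟨L, W, hBL, ?_, ?_, ?_, hW'⟩
  · intro b hb
    have h1 : (⟨b, hBL hb⟩ : L) ∈ B₂ := Subring.subset_closure (Or.inl hb)
    exact hB₂W' h1
  · intro z hz
    exact hXW' ⟨z, hXL z hz⟩ hz
  · intro z hz hzW
    exact hNW' ⟨z, hNL z hz⟩ hz hzW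

/-- The data at valuation rings which are discrete on a subfield. -/
theorem da_near {R : Type u} [CommRing R] (hR : HJ R) {K : Type u} [Field K] (ρ : R →+* K)
    {T : Set K} (hT : T.Finite) {W : ValuationSubring K} (hAW : rg ρ T ≤ W.toSubring)
    (L : Subfield K) (hAL : rg ρ T ≤ L.toSubring)
    (hW : W.comap L.subtype = ⊤ ∨ IsDiscreteValuationRing (W.comap L.subtype)) {G H : Set K}
    (hG : G.Finite) (hH : H.Finite) (hGf : ∀ h ∈ G, h ≠ 0 ∧ Fr (rg ρ T) h)
    (hHf : ∀ h ∈ H, h ∈ W ∧ Fr (rg ρ T) h) : DA W (rg ρ T) G H := by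
  classical
  have hρL : ∀ r, ρ r ∈ L := fun r => hAL (Subring.subset_closure (Or.inl ⟨r, rfl⟩))
  have hTL : ∀ t ∈ T, t ∈ L := fun t ht => hAL (Subring.subset_closure (Or.inr ht))
  let ρ' : R →+* L := ρ.codRestrict L hρL
  let T' : Set L := L.subtype ⁻¹' T
  have hT'f : T'.Finite := hT.preimage L.subtype.injective.injOn
  have hmap : (rg ρ' T').map L.subtype = rg ρ T := by
    change (Subring.closure ((ρ'.range : Set L) ∪ T')).map L.subtype =
      Subring.closure ((ρ.range : Set K) ∪ T)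
    rw [RingHom.map_closure, Set.image_union]
    congr 2
    · ext z
      constructor
      · rintro ⟨_, ⟨a, rfl⟩, rfl⟩
        exact ⟨a, rfl⟩
      · rintro ⟨a, rfl⟩
        exact ⟨_, ⟨a, rfl⟩, rfl⟩
    · ext z
      constructor
      · rintro ⟨w, hw, rfl⟩
        exact hw
      · intro hz
        exact ⟨⟨z, hTL z hz⟩, hz, rfl⟩
  have hfr : ∀ z : L, Fr (rg ρ T) (z : K) → Fr (rg ρ' T') z := by
    rintro z ⟨a, ha, b, hb, hb0, h⟩
    rw [← hmap] at ha hb
    obtain ⟨a', ha', rfl⟩ := ha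
    obtain ⟨b', hb', rfl⟩ := hb
    refine ⟨a', ha', b', hb', fun h0 => hb0 (by rw [h0, map_zero]), ?_⟩
    apply L.subtype.injective
    rw [map_mul, map_inv₀]
    exact h
  have hfrL : ∀ z, Fr (rg ρ T) z → z ∈ L := by
    rintro z ⟨a, ha, b, hb, hb0, rfl⟩
    exact L.mul_mem (hAL ha) (L.inv_mem (hAL hb))
  have himg : ∀ S : Set K, (∀ z ∈ S, Fr (rg ρ T) z) → L.subtype '' (L.subtype ⁻¹' S) = S := by
    intro S hS
    ext z
    constructor
    · rintro ⟨w, hw, rfl⟩
      exact hw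
    · intro hz
      exact ⟨⟨z, hfrL z (hS z hz)⟩, hz, rfl⟩
  have hAW' : rg ρ' T' ≤ (W.comap L.subtype).toSubring := by
    intro z hz
    have h1 : L.subtype z ∈ rg ρ T := by
      rw [← hmap]
      exact ⟨z, hz, rfl⟩
    exact hAW h1
  have h1 : DA (W.comap L.subtype) (rg ρ' T') (L.subtype ⁻¹' G) (L.subtype ⁻¹' H) := by
    refine gp_near hR ρ' hT'f hAW' hW _ _ (hG.preimage L.subtype.injective.injOn)
      (hH.preimage L.subtype.injective.injOn) (fun h hh => ?_) (fun h hh => ?_)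
    · refine ⟨fun h0 => (hGf _ hh).1 (by rw [h0, map_zero]), hfr _ (hGf _ hh).2⟩
    · exact ⟨(hHf _ hh).1, hfr _ (hHf _ hh).2⟩
  have h2 := h1.map
  rw [hmap, himg G fun z hz => (hGf z hz).2, himg H fun z hz => (hHf z hz).2] at h2
  exact h2

end Pool.Agent.V7H82.ZR
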