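import Pool.Agent.V7H82.ZR.Dvr

/-!
# Log desingularizations along the nearby valuations
-/

set_option autoImplicit false

universe u v

namespace Pool.Agent.V7H82.ZR

open IsLocalRing Pool.Agent.W418.LU2 Pool.Agent.TH188.QS

variable {K : Type u} [Field K]

/-- A log desingularization from the data for one pair of finite sets. -/
theorem logDesing_of_da {V : ValuationSubring K} {A : Subring K} (hA : A ≤ V.toSubring)
    {D I₀ : Ideal A} {S S' : Set A} (hS : Ideal.span S = D) (hS' : Ideal.span S' = I₀) {d f : A}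
    (hdD : d ∈ D) (hfI : f ∈ I₀) (hd0 : d ≠ 0) (hf0 : f ≠ 0)
    (h : DA V A {(d : K) * f}
      (((fun a : A => (a : K) / d) '' S) ∪ ((fun a : A => (a : K) / f) '' S'))) :
    ∃ I₁ : Ideal A, I₁ ≠ ⊥ ∧ LogDesing V A D (I₀ * I₁) := by
  classical
  have hd0' : (d : K) ≠ 0 := fun h => hd0 (Subtype.ext h)
  have hf0' : (f : K) ≠ 0 := fun h => hf0 (Subtype.ext h)
  obtain ⟨ι, _, x, P, g, hreg, hFgM, hgmon, hG, hH⟩ := h
  have hdf : PMon P x ((d : K) * f) := hG _ rfl
  obtain ⟨hgA, hgne, T, hTf, hT, hQM⟩ := hFgM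
  have hBQ : Subring.closure ((A : Set K) ∪ T) ≤ P := by rw [hQM]; exact le_lo _ _
  have hAQ : A ≤ P := fun a ha => hBQ (Subring.subset_closure (Or.inl ha))
  have hDQ : ∀ a ∈ D, (a : K) / d ∈ P := by
    intro a ha
    rw [← hS] at ha
    exact gen_div hAQ (fun a ha => hH _ (Or.inl ⟨a, ha, rfl⟩)) ha
  have hIQ : ∀ a ∈ I₀, (a : K) / f ∈ P := by
    intro a ha
    rw [← hS'] at ha
    exact gen_div hAQ (fun a ha => hH _ (Or.inr ⟨a, ha, rfl⟩)) ha
  let gA : A := ⟨g, hgA⟩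
  let U : Set A := insert gA {a | ∃ t ∈ T, (a : K) = t * g}
  have hgU : gA ∈ Ideal.span U := Ideal.subset_span (Set.mem_insert _ _)
  have hUQ : ∀ a ∈ Ideal.span U, (a : K) / g ∈ P := by
    intro a ha
    refine gen_div hAQ (fun a ha => ?_) ha
    rcases ha with rfl | ⟨t, ht, hat⟩
    · change g / g ∈ P
      rw [div_self hgne]
      exact P.one_mem
    · rw [hat, mul_div_cancel_right₀ _ hgne]
      exact hBQ (Subring.subset_closure (Or.inr ht))
  have hgA0 : gA ≠ 0 := fun h => hgne (congrArg Subtype.val h)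
  refine ⟨Ideal.span U, ?_, ?_⟩
  · intro h
    rw [h, Ideal.mem_bot] at hgU
    exact hgA0 hgU
  have hfg : f * gA ∈ I₀ * Ideal.span U := Ideal.mul_mem_mul hfI hgU
  have hIU : ∀ a ∈ I₀ * Ideal.span U, (a : K) / ((f * gA : A) : K) ∈ P := by
    intro a ha
    refine Submodule.mul_induction_on ha ?_ ?_
    · intro b hb c hc
      have h3 : ((b * c : A) : K) / ((f * gA : A) : K) = (b : K) / (f : K) * ((c : K) / g) := by
        change (b : K) * (c : K) / ((f : K) * g) = _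
        field_simp
      rw [h3]
      exact P.mul_mem (hIQ b hb) (hUQ c hc)
    · intro b c hb hc
      have h3 : ((b + c : A) : K) / ((f * gA : A) : K) = (b : K) / ((f * gA : A) : K) +
          (c : K) / ((f * gA : A) : K) := add_div _ _ _
      rw [h3]
      exact P.add_mem hb hc
  refine logDesing_of hfg (mul_ne_zero hf0 hgA0) (fun a ha => hreg.PA (hIU a ha)) hdD hd0 ?_ hreg
    hDQ ?_
  · apply le_antisymm
    · nth_rewrite 1 [hQM]
      refine lo_le_lo (cl_le hA fun t ht => (hT t ht).1) ?_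
      rw [← hQM]
      unfold chart
      rw [Subring.closure_le]
      rintro z (hz | ⟨a, ha, rfl⟩)
      · exact hAQ hz
      · exact hIU a ha
    · nth_rewrite 1 [hQM]
      refine lo_mono ?_
      rw [Subring.closure_le]
      rintro z (hz | hz)
      · exact Subring.subset_closure (Or.inl hz)
      · have h3 : (⟨z * g, (hT z hz).2⟩ : A) ∈ Ideal.span U :=
          Ideal.subset_span (Or.inr ⟨z, hz, rfl⟩)
        refine Subring.subset_closure (Or.inr ⟨f * ⟨z * g, (hT z hz).2⟩,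
          Ideal.mul_mem_mul hfI h3, ?_⟩)
        change z = (f : K) * (z * g) / ((f : K) * g)
        field_simp
  · have h3 : (d : K) * ((f * gA : A) : K) = (d : K) * f * g := by
      change (d : K) * ((f : K) * g) = _
      ring
    rw [h3]
    exact hdf.mul hreg.ne hgmon

/-- The passage to rings essentially of finite type. -/
theorem DA.loc {V : ValuationSubring K} {A B : Subring K} (hA : A ≤ V.toSubring) {G H : Set K}
    (h : DA V A G H) (hAB : A ≤ B) (hB : B ≤ lo V.toSubring A) : DA V B G H := by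
  obtain ⟨ι, _, x, P, g, h1, ⟨hgA, hg0, T, hTf, hT, hP⟩, h3, h4, h5⟩ := h
  have hTV : Subring.closure ((A : Set K) ∪ T) ≤ V.toSubring := cl_le hA fun t ht => (hT t ht).1
  refine ⟨ι, inferInstance, x, P, g, h1, ⟨hAB hgA, hg0, T, hTf, fun t ht => ⟨(hT t ht).1,
    hAB (hT t ht).2⟩, ?_⟩, h3, h4, h5⟩
  rw [hP]
  apply le_antisymm
  · refine lo_mono (Subring.closure_mono ?_)
    rintro z (hz | hz)
    · exact Or.inl (hAB hz)
    · exact Or.inr hz
  · refine lo_le_lo hTV ?_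
    rw [Subring.closure_le]
    rintro z (hz | hz)
    · exact lo_mono (fun a ha => Subring.subset_closure (Or.inl ha)) (hB hz)
    · exact le_lo _ _ (Subring.subset_closure (Or.inr hz))

/-- The trivial valuation and the discrete valuations of rank one. -/
theorem gp_near {R : Type u} [CommRing R] (hR : HJ R) (ρ : R →+* K) {T : Set K} (hT : T.Finite)
    {W : ValuationSubring K} (hAW : rg ρ T ≤ W.toSubring)
    (hW : W = ⊤ ∨ IsDiscreteValuationRing W) : GP W (rg ρ T) := by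
  rcases hW with rfl | hW
  · exact gp_trivial hAW fun _ _ _ => trivial
  · exact (gp_div hR ρ hT hAW (dv_of_dvr hW fun n => qseq_le hAW n)).1

/-- Let `B` be essentially of finite type over a base ring. Near every trivial or discrete valuation ring `W` over `B`
the blowing-ups which solve the problem `(D, I₀)` at `W` solve it for all valuation rings. -/
theorem near_solved {R : Type u} [CommRing R] (hR : HJ R) (ρ : R →+* K) {T : Set K}
    (hT : T.Finite) {B : Subring K} (hAB : rg ρ T ≤ B)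
    (hBA : ∀ b ∈ B, ∃ a ∈ rg ρ T, ∃ s ∈ rg ρ T, s ≠ 0 ∧ s⁻¹ ∈ B ∧ b = a * s⁻¹)
    {W : ValuationSubring K} (hBW : B ≤ W.toSubring) (hW : W = ⊤ ∨ IsDiscreteValuationRing W)
    {D I₀ : Ideal B} (hD : D ≠ ⊥) (hI : I₀ ≠ ⊥) :
    ∃ X N : Set K, X.Finite ∧ N.Finite ∧ (∀ z ∈ X, z ∈ W) ∧ (∀ z ∈ N, z ∉ W) ∧
      ∀ V : ValuationSubring K, B ≤ V.toSubring → (∀ z ∈ X, z ∈ V) → (∀ z ∈ N, z ∉ V) →
        ∃ I₁ : Ideal B, I₁ ≠ ⊥ ∧ LogDesing V B D (I₀ * I₁) := by
  classical
  have hBA' : ∀ V : ValuationSubring K, B ≤ V.toSubring → B ≤ lo V.toSubring (rg ρ T) := by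
    intro V hBV b hb
    obtain ⟨a, ha, s, hs, hs0, hsB, rfl⟩ := hBA b hb
    exact ⟨a, ha, s, hs, hs0, hBV hsB, rfl⟩
  have hnoeB : IsNoetherianRing B :=
    (main hR (V := ⊤) ρ hT (B := B) (fun _ _ => trivial) hAB hBA (Or.inl ⟨0, rfl⟩)).2
  have hAW : rg ρ T ≤ W.toSubring := hAB.trans hBW
  obtain ⟨S, hS⟩ := (IsNoetherian.noetherian D : D.FG)
  obtain ⟨S', hS'⟩ := (IsNoetherian.noetherian I₀ : I₀.FG)
  have hS : Ideal.span (S : Set B) = D := hS
  have hS' : Ideal.span (S' : Set B) = I₀ := hS'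
  obtain ⟨d, hdS, hd0, hd⟩ := exists_gen W hBW S.finite_toSet (by rw [hS]; exact hD)
  obtain ⟨f, hfS, hf0, hf⟩ := exists_gen W hBW S'.finite_toSet (by rw [hS']; exact hI)
  have hdD : d ∈ D := by rw [← hS]; exact Ideal.subset_span hdS
  have hfI : f ∈ I₀ := by rw [← hS']; exact Ideal.subset_span hfS
  have hd0' : (d : K) ≠ 0 := fun h => hd0 (Subtype.ext h)
  have hf0' : (f : K) ≠ 0 := fun h => hf0 (Subtype.ext h)
  have hfrB : ∀ b ∈ B, Fr (rg ρ T) b := by
    intro b hb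
    obtain ⟨a, ha, s, hs, hs0, -, rfl⟩ := hBA b hb
    exact ⟨a, ha, s, hs, hs0, rfl⟩
  have hfrd : ∀ a b : K, Fr (rg ρ T) a → Fr (rg ρ T) b → b ≠ 0 → Fr (rg ρ T) (a / b) := by
    rintro _ _ ⟨a, ha, b, hb, hb0, rfl⟩ ⟨a', ha', b', hb', hb'0, rfl⟩ h0
    have ha'0 : a' ≠ 0 := left_ne_zero_of_mul h0
    refine ⟨a * b', Subring.mul_mem _ ha hb', b * a', Subring.mul_mem _ hb ha',
      mul_ne_zero hb0 ha'0, ?_⟩
    field_simp
  have hfrm : Fr (rg ρ T) ((d : K) * f) := hfrB _ (B.mul_mem d.2 f.2)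
  set H : Set K := ((fun a : B => (a : K) / d) '' (S : Set B)) ∪
    ((fun a : B => (a : K) / f) '' (S' : Set B)) with hH
  have hHf : H.Finite := (S.finite_toSet.image _).union (S'.finite_toSet.image _)
  have hda : DA W (rg ρ T) {(d : K) * f} H := by
    refine gp_near hR ρ hT hAW hW _ _ (Set.finite_singleton _) hHf (fun h hh => ?_) ?_
    · rw [Set.mem_singleton_iff.1 hh]
      exact ⟨mul_ne_zero hd0' hf0', hfrm⟩
    · rintro _ (⟨a, ha, rfl⟩ | ⟨a, ha, rfl⟩)
      · exact ⟨hd a (Ideal.subset_span ha), hfrd _ _ (hfrB a a.2) (hfrB d d.2) hd0'⟩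
      · exact ⟨hf a (Ideal.subset_span ha), hfrd _ _ (hfrB a a.2) (hfrB f f.2) hf0'⟩
  obtain ⟨X, N, hXf, hNf, hX, hN, hsp⟩ := spread hR ρ hT hAW (Set.finite_singleton _) hHf hda
  refine ⟨X, (fun z => z⁻¹) '' N, hXf, hNf.image _, hX, ?_, ?_⟩
  · rintro _ ⟨z, hz, rfl⟩
    exact hN z hz
  · intro V hBV hXV hNV
    have h1 := hsp V (hAB.trans hBV) hXV fun z hz => hNV _ ⟨z, hz, rfl⟩
    exact logDesing_of_da hBV hS hS' hdD hfI hd0 hf0 (h1.loc (hAB.trans hBV) hAB (hBA' V hBV))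

end Pool.Agent.V7H82.ZR
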