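import Pool.Agent.V7H82.ZR.Gen

/-!
# Log desingularizations along the nearby valuations, the general case
-/

set_option autoImplicit false

universe u v

namespace Pool.Agent.V7H82.ZR

open IsLocalRing Pool.Agent.W418.LU2 Pool.Agent.TH188.QS

/-- `B` is a localization of the `R`-algebra generated by the finite set `T`. -/
structure Ess {R K : Type u} [CommRing R] [Field K] (ρ : R →+* K) (T : Set K) (B : Subring K) :
    Prop where
  fin : T.Finite
  le : rg ρ T ≤ B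
  ge : ∀ b ∈ B, ∃ a ∈ rg ρ T, ∃ s ∈ rg ρ T, s ≠ 0 ∧ s⁻¹ ∈ B ∧ b = a * s⁻¹

variable {R : Type u} [CommRing R] {K : Type u} [Field K] {ρ : R →+* K} {T : Set K}
  {B : Subring K}

lemma Ess.le_lo (h : Ess ρ T B) {V : ValuationSubring K} (hBV : B ≤ V.toSubring) :
    B ≤ lo V.toSubring (rg ρ T) := by
  intro b hb
  obtain ⟨a, ha, s, hs, hs0, hsB, rfl⟩ := h.ge b hb
  exact ⟨a, ha, s, hs, hs0, hBV hsB, rfl⟩

lemma Ess.noeth (hR : HJ R) (h : Ess ρ T B) : IsNoetherianRing B :=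
  (main hR (V := ⊤) ρ h.fin (B := B) (fun _ _ => trivial) h.le h.ge (Or.inl ⟨0, rfl⟩)).2

lemma Ess.countable [Countable R] (h : Ess ρ T B) : Countable B := by
  obtain ⟨n, t, ht⟩ := exists_fin_range h.fin
  have h1 : Countable (MvPolynomial (Fin n) R) := by
    rw [← Cardinal.mk_le_aleph0_iff]
    refine MvPolynomial.cardinalMk_le_max_lift.trans ?_
    simp
  have h2 : (rg ρ T : Set K).Countable := by
    have h3 : (MvPolynomial.eval₂Hom ρ t).range = rg ρ T := by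
      rw [range_eval, ht]
    rw [← h3]
    exact Set.countable_range _
  have h3 : (B : Set K) ⊆ (fun p : K × K => p.1 * p.2⁻¹) '' ((rg ρ T : Set K) ×ˢ (rg ρ T : Set K)) := by
    intro b hb
    obtain ⟨a, ha, s, hs, -, -, rfl⟩ := h.ge b hb
    exact ⟨(a, s), ⟨ha, hs⟩, rfl⟩
  exact (((h2.prod h2).image _).mono h3).to_subtype

/-- Near a valuation ring `W` over `B` whose restriction to a subfield `L ⊇ B` is discrete or trivial all valuation rings
have solutions of the problem `(D, I₀)`. -/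
theorem Ess.near (hR : HJ R) (h : Ess ρ T B) {W : ValuationSubring K} (hBW : B ≤ W.toSubring)
    {L : Subfield K} (hBL : B ≤ L.toSubring)
    (hW : W.comap L.subtype = ⊤ ∨ IsDiscreteValuationRing (W.comap L.subtype))
    {D I₀ : Ideal B} (hD : D ≠ ⊥) (hI : I₀ ≠ ⊥) :
    ∃ X N : Set K, X.Finite ∧ N.Finite ∧ (∀ z ∈ X, z ∈ W) ∧ (∀ z ∈ N, z ∉ W) ∧
      ∀ V : ValuationSubring K, B ≤ V.toSubring → (∀ z ∈ X, z ∈ V) → (∀ z ∈ N, z ∉ V) →
        ∃ I₁ : Ideal B, I₁ ≠ ⊥ ∧ LogDesing V B D (I₀ * I₁) := by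
  classical
  have hnoeB := h.noeth hR
  have hAB := h.le
  have hT := h.fin
  have hAW : rg ρ T ≤ W.toSubring := hAB.trans hBW
  obtain ⟨S, hS⟩ := (IsNoetherian.noetherian D : D.FG)
  obtain ⟨S', hS'⟩ := (IsNoetherian.noetherian I₀ : I₀.FG)
  have hS : Ideal.span (S : Set B) = D := hS
  have hS' : Ideal.span (S' : Set B) = I₀ := hS'
  obtain ⟨d, hdS, hd0, hd⟩ := exists_gen W hBW S.finite_toSet (by rw [hS]; exact hD)
  obtain ⟨f, hfS, hf0, hf⟩ := exists_gen W hBW S'.finite_toSet (by rw [hS']; exact hI)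
  have hdD : d ∈ D := by rw [← hS]; exact Ideal.subset_span hdS
  have hfI : f ∈ I₀ := by rw [← hS']; exact Ideal.subset_span hfS
  have hd0' : (d : K) ≠ 0 := fun h => hd0 (Subtype.ext h)
  have hf0' : (f : K) ≠ 0 := fun h => hf0 (Subtype.ext h)
  have hfrB : ∀ b ∈ B, Fr (rg ρ T) b := by
    intro b hb
    obtain ⟨a, ha, s, hs, hs0, -, rfl⟩ := h.ge b hb
    exact ⟨a, ha, s, hs, hs0, rfl⟩
  have hfrd : ∀ a b : K, Fr (rg ρ T) a → Fr (rg ρ T) b → b ≠ 0 → Fr (rg ρ T) (a / b) := by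
    rintro _ _ ⟨a, ha, b, hb, hb0, rfl⟩ ⟨a', ha', b', hb', hb'0, rfl⟩ h0
    have ha'0 : a' ≠ 0 := left_ne_zero_of_mul h0
    refine ⟨a * b', Subring.mul_mem _ ha hb', b * a', Subring.mul_mem _ hb ha',
      mul_ne_zero hb0 ha'0, ?_⟩
    field_simp
  have hfrm : Fr (rg ρ T) ((d : K) * f) := hfrB _ (B.mul_mem d.2 f.2)
  set H : Set K := ((fun a : B => (a : K) / d) '' (S : Set B)) ∪
    ((fun a : B => (a : K) / f) '' (S' : Set B)) with hH
  have hHf : H.Finite := (S.finite_toSet.image _).union (S'.finite_toSet.image _)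
  have hda : DA W (rg ρ T) {(d : K) * f} H := by
    refine da_near hR ρ hT hAW L (hAB.trans hBL) hW (Set.finite_singleton _) hHf
      (fun h hh => ?_) ?_
    · rw [Set.mem_singleton_iff.1 hh]
      exact ⟨mul_ne_zero hd0' hf0', hfrm⟩
    · rintro _ (⟨a, ha, rfl⟩ | ⟨a, ha, rfl⟩)
      · exact ⟨hd a (Ideal.subset_span ha), hfrd _ _ (hfrB a a.2) (hfrB d d.2) hd0'⟩
      · exact ⟨hf a (Ideal.subset_span ha), hfrd _ _ (hfrB a a.2) (hfrB f f.2) hf0'⟩
  obtain ⟨X, N, hXf, hNf, hX, hN, hsp⟩ := spread hR ρ hT hAW (Set.finite_singleton _) hHf hda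
  refine ⟨X, (fun z => z⁻¹) '' N, hXf, hNf.image _, hX, ?_, ?_⟩
  · rintro _ ⟨z, hz, rfl⟩
    exact hN z hz
  · intro V hBV hXV hNV
    have h1 := hsp V (hAB.trans hBV) hXV fun z hz => hNV _ ⟨z, hz, rfl⟩
    exact logDesing_of_da hBV hS hS' hdD hfI hd0 hf0 (h1.loc (hAB.trans hBV) hAB (h.le_lo hBV))

/-- Every valuation ring centred at `𝔭` has in each patch neighbourhood an open set of valuation rings centred at `𝔭` with
solutions of the problem `(D, I₀)`. -/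
theorem Ess.dense (hR : HJ R) (h : Ess ρ T B) {𝔭 : Ideal B} {V : ValuationSubring K}
    (hBV : B ≤ V.toSubring) (hV : ∀ b : B, b ∈ 𝔭 ↔ V.valuation (b : K) < 1) {X₀ N₀ : Set K}
    (hX₀ : X₀.Finite) (hN₀ : N₀.Finite) (hXV : ∀ z ∈ X₀, z ∈ V) (hNV : ∀ z ∈ N₀, z ∉ V)
    {D I₀ : Ideal B} (hD : D ≠ ⊥) (hI : I₀ ≠ ⊥) :
    ∃ (W : ValuationSubring K) (X N : Set K), B ≤ W.toSubring ∧
      (∀ b : B, b ∈ 𝔭 ↔ W.valuation (b : K) < 1) ∧ X.Finite ∧ N.Finite ∧
      (∀ z ∈ X₀ ∪ X, z ∈ W) ∧ (∀ z ∈ N₀ ∪ N, z ∉ W) ∧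
      ∀ V : ValuationSubring K, B ≤ V.toSubring → (∀ z ∈ X, z ∈ V) → (∀ z ∈ N, z ∉ V) →
        ∃ I₁ : Ideal B, I₁ ≠ ⊥ ∧ LogDesing V B D (I₀ * I₁) := by
  classical
  have hnoe := h.noeth hR
  have hPV : lo V.toSubring B ≤ V.toSubring := lo_le hBV
  have hBP : B ≤ lo V.toSubring B := Pool.Agent.W418.LU2.le_lo _ _
  have hnoeP : IsNoetherianRing (lo V.toSubring B) := noeth_lo hBV
  obtain ⟨Z, hZ⟩ := (IsNoetherian.noetherian 𝔭 : 𝔭.FG)
  have hZ' : Ideal.span (Z : Set B) = 𝔭 := hZ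
  let N₁ : Set K := (fun z : B => (z : K)⁻¹) '' {z | z ∈ Z ∧ z ≠ 0}
  have hN₁f : N₁.Finite := (Z.finite_toSet.subset fun z hz => hz.1).image _
  have hN₁V : ∀ z ∈ N₁, z ∉ V := by
    rintro _ ⟨z, ⟨hz, hz0⟩, rfl⟩
    have h1 : z ∈ 𝔭 := by rw [← hZ']; exact Ideal.subset_span hz
    have h2 := (hV z).1 h1
    rw [← nu_iff] at h2
    exact fun h3 => h2 ⟨fun h4 => hz0 (Subtype.ext h4), h3⟩
  obtain ⟨L, W, hPL, hPW, hXW, hNW, hW⟩ := exists_near_gen hPV hX₀ (hN₀.union hN₁f) hXV (by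
    rintro z (hz | hz)
    · exact hNV z hz
    · exact hN₁V z hz)
  have hBW : B ≤ W.toSubring := hBP.trans hPW
  obtain ⟨X, N, hXf, hNf, hX, hN, hall⟩ := h.near hR hBW (hBP.trans hPL) hW hD hI
  refine ⟨W, X, N, hBW, ?_, hXf, hNf, ?_, ?_, hall⟩
  · intro b
    constructor
    · intro hb
      rw [← hZ'] at hb
      induction hb using Submodule.span_induction with
      | mem z hz =>
        rw [← nu_iff]
        rintro ⟨h0, h1⟩
        exact hNW _ (Or.inr ⟨z, ⟨hz, fun h2 => h0 (by rw [h2]; rfl)⟩, rfl⟩) h1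
      | zero =>
        rw [ZeroMemClass.coe_zero, map_zero]
        exact zero_lt_one
      | add a b _ _ ha hb =>
        rw [Subring.coe_add]
        exact lt_of_le_of_lt (W.valuation.map_add _ _) (max_lt ha hb)
      | smul c a _ ha =>
        rw [smul_eq_mul, Subring.coe_mul, map_mul]
        have h1 := (W.valuation_le_one_iff _).2 (hBW c.2)
        calc W.valuation (c : K) * W.valuation (a : K) ≤ 1 * W.valuation (a : K) :=
              mul_le_mul_left h1 _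
          _ = W.valuation (a : K) := one_mul _
          _ < 1 := ha
    · intro hb
      by_contra h1
      have h2 : ¬ V.valuation (b : K) < 1 := fun h3 => h1 ((hV b).2 h3)
      rw [← nu_iff] at h2 hb
      have h3 : (b : K) ≠ 0 ∧ (b : K)⁻¹ ∈ V.toSubring := not_not.1 h2
      apply hb
      refine ⟨h3.1, hPW ?_⟩
      exact inv_mem_lo hBV (hBP b.2) h3.1 h3.2
  · rintro z (hz | hz)
    · exact hXW z hz
    · exact hX z hz
  · rintro z (hz | hz)
    · exact hNW z (Or.inl hz)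
    · exact hN z hz

end Pool.Agent.V7H82.ZR
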