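import Pool.Agent.V7H82.ZR.Open

/-!
# Regular models of a valuation are regular models of the nearby valuations, second part
-/

set_option autoImplicit false

universe u v

namespace Pool.Agent.V7H82.ZR

open IsLocalRing Pool.Agent.W418.LU2 Pool.Agent.TH188.QS

/-- The heart: the local rings at the centres of the nearby valuations are regular. -/
theorem near_reg {R : Type u} [CommRing R] (hR : HJ R) {K : Type u} [Field K] (ρ : R →+* K)
    {T : Set K} (hT : T.Finite) {V : ValuationSubring K} (hAV : rg ρ T ≤ V.toSubring)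
    {ι : Type} [Fintype ι] {x : ι → K} (hreg : RegP V.toSubring (lo V.toSubring (rg ρ T)) x)
    (hxn : ∀ i, (x i)⁻¹ ∉ V)
    (hgen : ∀ y ∈ lo V.toSubring (rg ρ T), NU V.toSubring y →
      ∃ c : ι → K, (∀ i, c i ∈ lo V.toSubring (rg ρ T)) ∧ y = ∑ i, c i * x i)
    (hcard : ((Fintype.card ι : ℕ) : WithBot ℕ∞) ≤ ringKrullDim (lo V.toSubring (rg ρ T)))
    {E : Set K} (hE : E.Finite) (hEP : ∀ e ∈ E, e ∈ lo V.toSubring (rg ρ T)) :
    ∃ s ∈ rg ρ T, s ≠ 0 ∧ s⁻¹ ∈ V ∧ ∀ V' : ValuationSubring K, rg ρ T ≤ V'.toSubring → s⁻¹ ∈ V' →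
      (∀ i, (x i)⁻¹ ∉ V') → RegP V'.toSubring (lo V'.toSubring (rg ρ T)) x ∧
        ∀ e ∈ E, e ∈ lo V'.toSubring (rg ρ T) := by
  classical
  set A := rg ρ T with hA
  have hnoe : IsNoetherianRing A := noe_rg hR ρ hT
  obtain ⟨𝔭, h𝔭, hmem, hdim⟩ := lo_loc (loc_V V) hAV
  obtain ⟨h, hh𝔭, hopen⟩ := exists_open hR ρ hT 𝔭
  obtain ⟨Z, hZ⟩ := (IsNoetherian.noetherian 𝔭 : 𝔭.FG)
  have hZ' : Ideal.span (Z : Set A) = 𝔭 := hZ
  have hzc : ∀ z : A, ∃ c : ι → K, z ∈ Z → (∀ i, c i ∈ lo V.toSubring A) ∧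
      (z : K) = ∑ i, c i * x i := by
    intro z
    by_cases hz : z ∈ Z
    · have h1 : z ∈ 𝔭 := by rw [← hZ']; exact Ideal.subset_span hz
      obtain ⟨c, h2, h3⟩ := hgen z (le_lo _ _ z.2) ((hmem z).1 h1)
      exact ⟨c, fun _ => ⟨h2, h3⟩⟩
    · exact ⟨0, fun h => absurd h hz⟩
  choose c hc using hzc
  -- common denominators
  let E' : Set K := (E ∪ Set.range x) ∪ ⋃ z ∈ Z, Set.range (c z)
  have hE'f : E'.Finite := by
    refine (hE.union (Set.finite_range _)).union ?_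
    exact Set.Finite.biUnion Z.finite_toSet fun z _ => Set.finite_range _
  have hE'P : ∀ e ∈ E', e ∈ lo V.toSubring A := by
    rintro e ((he | ⟨i, rfl⟩) | he)
    · exact hEP e he
    · exact hreg.mem i
    · simp only [Set.mem_iUnion] at he
      obtain ⟨z, hz, i, rfl⟩ := he
      exact (hc z hz).1 i
  obtain ⟨n, e, he⟩ := exists_fin_range hE'f
  obtain ⟨β, hβ, hβ0, hβV, heβ⟩ := comden hAV (z := e) (fun i => hE'P _ (by
    rw [← he]; exact ⟨i, rfl⟩))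
  have hEβ : ∀ w ∈ E', w * β ∈ A := by
    intro w hw
    rw [← he] at hw
    obtain ⟨i, rfl⟩ := hw
    exact heβ i
  have hh0 : (h : K) ≠ 0 ∧ (h : K)⁻¹ ∈ V.toSubring := by
    by_contra h1
    exact hh𝔭 ((hmem h).2 h1)
  refine ⟨β * h, A.mul_mem hβ h.2, mul_ne_zero hβ0 hh0.1, ?_, ?_⟩
  · rw [mul_inv]
    exact V.mul_mem _ _ hβV hh0.2
  intro V' hAV' hs hxV'
  have hβV' : β⁻¹ ∈ V' := by
    have h1 : β⁻¹ = (β * h)⁻¹ * h := by
      rw [mul_inv, inv_mul_cancel_right₀ hh0.1]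
    rw [h1]
    exact V'.mul_mem _ _ hs (hAV' h.2)
  have hhV' : (h : K)⁻¹ ∈ V' := by
    have h1 : (h : K)⁻¹ = (β * h)⁻¹ * β := by
      rw [mul_inv, mul_comm β⁻¹, inv_mul_cancel_right₀ hβ0]
    rw [h1]
    exact V'.mul_mem _ _ hs (hAV' hβ)
  set P := lo V'.toSubring A with hP
  have hAP : A ≤ P := le_lo _ _
  have hEP' : ∀ w ∈ E', w ∈ P := fun w hw =>
    ⟨w * β, hEβ w hw, β, hβ, hβ0, hβV', (mul_inv_cancel_right₀ hβ0 w).symm⟩
  have hxP : ∀ i, x i ∈ P := fun i => hEP' _ (Or.inl (Or.inr ⟨i, rfl⟩))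
  obtain ⟨𝔮, h𝔮, hmem𝔮, hL⟩ := lo_atPrime (loc_V V') hAV'
  let _ : Algebra A P := (Subring.inclusion hAP).toAlgebra
  have hL' : IsLocalization.AtPrime P 𝔮 := hL
  have halg : ∀ a : A, ((algebraMap A P a : P) : K) = a := fun a => rfl
  have hloc : IsLocalRing P := isLocalRing_lo (loc_V V') hAV'
  have hnoeP : IsNoetherianRing P := IsLocalization.isNoetherianRing 𝔮.primeCompl P hnoe
  let x' : ι → P := fun i => ⟨x i, hxP i⟩
  have hxm : ∀ i, x' i ∈ maximalIdeal P := by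
    intro i
    rw [mem_maximalIdeal, mem_nonunits_iff, isUnit_lo_iff hAV']
    exact fun h1 => hxV' i h1.2
  have hz' : ∀ z ∈ Z, algebraMap A P z ∈ Ideal.span (Set.range x') := by
    intro z hz
    have hcP : ∀ i, c z i ∈ P := fun i => hEP' _ (Or.inr (by
      simp only [Set.mem_iUnion]
      exact ⟨z, hz, i, rfl⟩))
    have h1 : algebraMap A P z = ∑ i, (⟨c z i, hcP i⟩ : P) * x' i := by
      apply Subtype.ext
      have h2 : ((∑ i, (⟨c z i, hcP i⟩ : P) * x' i : P) : K) = ∑ i, c z i * x i :=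
        map_sum P.subtype _ _
      rw [h2, halg]
      exact (hc z hz).2
    rw [h1]
    exact Ideal.sum_mem _ fun i _ => Ideal.mul_mem_left _ _ (Ideal.subset_span ⟨i, rfl⟩)
  have hspan_le : Ideal.span (Set.range x') ≤ maximalIdeal P := by
    rw [Ideal.span_le]
    rintro _ ⟨i, rfl⟩
    exact hxm i
  have h𝔭𝔮 : 𝔭 ≤ 𝔮 := by
    rw [← hZ', Ideal.span_le]
    intro z hz
    rw [SetLike.mem_coe, hmem𝔮]
    intro h1
    have h2 : IsUnit (algebraMap A P z) := (isUnit_lo_iff hAV' _).2 h1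
    exact (mem_maximalIdeal _).1 (hspan_le (hz' z hz)) h2
  have hspan : Ideal.span (Set.range x') = 𝔭.map (algebraMap A P) := by
    apply le_antisymm
    · rw [Ideal.span_le]
      rintro _ ⟨i, rfl⟩
      have h1 : x i * β ∈ A := hEβ _ (Or.inl (Or.inr ⟨i, rfl⟩))
      have h2 : (⟨x i * β, h1⟩ : A) ∈ 𝔭 := by
        rw [hmem]
        rintro ⟨h3, h4⟩
        apply hxn i
        have h5 : (x i)⁻¹ = (x i * β)⁻¹ * β := by
          rw [mul_inv, inv_mul_cancel_right₀ hβ0]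
        rw [h5]
        exact V.mul_mem _ _ h4 (hAV hβ)
      have hβP : β⁻¹ ∈ P := inv_mem_lo hAV' (hAP hβ) hβ0 hβV'
      have h3 : x' i = (⟨β⁻¹, hβP⟩ : P) * algebraMap A P ⟨x i * β, h1⟩ := by
        apply Subtype.ext
        change x i = β⁻¹ * (x i * β)
        rw [mul_comm, mul_inv_cancel_right₀ hβ0]
      rw [SetLike.mem_coe, h3]
      exact Ideal.mul_mem_left _ _ (Ideal.mem_map_of_mem _ h2)
    · rw [Ideal.map_le_iff_le_comap, ← hZ', Ideal.span_le]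
      intro z hz
      exact hz' z hz
  have hdisj : Disjoint (𝔮.primeCompl : Set A) (𝔭 : Set A) := by
    rw [Set.disjoint_left]
    intro a ha hap
    exact ha (h𝔭𝔮 hap)
  have hpr : (𝔭.map (algebraMap A P)).IsPrime :=
    IsLocalization.isPrime_of_isPrime_disjoint 𝔮.primeCompl P 𝔭 h𝔭 hdisj
  have hund : (𝔭.map (algebraMap A P)).under A = 𝔭 :=
    IsLocalization.comap_map_of_isPrime_disjoint 𝔮.primeCompl P h𝔭 hdisj
  have hht : ((Fintype.card ι : ℕ) : ℕ∞) ≤ (Ideal.span (Set.range x')).height := by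
    rw [hspan, ← IsLocalization.height_under 𝔮.primeCompl (𝔭.map (algebraMap A P)), hund]
    rw [hdim] at hcard
    exact_mod_cast hcard
  have hh𝔮 : h ∉ 𝔮 := by
    rw [hmem𝔮]
    exact fun h1 => h1 ⟨hh0.1, hhV'⟩
  have hq : IsRegularLocalRing (P ⧸ Ideal.span (Set.range x')) := by
    rw [hspan]
    exact hopen 𝔮 P h𝔭𝔮 hh𝔮
  obtain ⟨hPreg, hInd⟩ := reg_of_quot x' hq hht
  refine ⟨⟨lo_le hAV', hreg.ne, hxP, hPreg, fun y hy h0 h1 => inv_mem_lo hAV' hy h0 h1, ?_⟩,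
    fun w hw => hEP' w (Or.inl (Or.inl hw))⟩
  exact IndN.of_ind id Function.injective_id (fun i _ => ⟨i, rfl⟩) hInd

/-- The data persist near `V`. -/
theorem spread {R : Type u} [CommRing R] (hR : HJ R) {K : Type u} [Field K] (ρ : R →+* K)
    {T : Set K} (hT : T.Finite) {V : ValuationSubring K} (hAV : rg ρ T ≤ V.toSubring)
    {G H : Set K} (hG : G.Finite) (hH : H.Finite) (hD : DA V (rg ρ T) G H) :
    ∃ X N : Set K, X.Finite ∧ N.Finite ∧ (∀ z ∈ X, z ∈ V) ∧ (∀ z ∈ N, z⁻¹ ∉ V) ∧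
      ∀ V' : ValuationSubring K, rg ρ T ≤ V'.toSubring → (∀ z ∈ X, z ∈ V') →
        (∀ z ∈ N, z⁻¹ ∉ V') → DA V' (rg ρ T) G H := by
  classical
  obtain ⟨ι₀, _, x₀, P, g, hreg₀, ⟨hgA, hg0, T', hT'f, hT', hP⟩, hgm₀, hGm₀, hHP⟩ := hD
  obtain ⟨ι, _, x, hreg, hxn, hgen, hpm, hcard⟩ := norm_params hreg₀
  have hcl : Subring.closure ((rg ρ T : Set K) ∪ T') = rg ρ (T ∪ T') := by
    change Subring.closure ((Subring.closure ((ρ.range : Set K) ∪ T) : Set K) ∪ T') =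
      Subring.closure ((ρ.range : Set K) ∪ (T ∪ T'))
    rw [closure_closure_union, Set.union_assoc]
  rw [hcl] at hP
  have hTT : (T ∪ T').Finite := hT.union hT'f
  have hAV₂ : rg ρ (T ∪ T') ≤ V.toSubring := by
    rw [← hcl]
    exact cl_le hAV fun t ht => (hT' t ht).1
  -- the units
  have hun : ∀ z : K, ∃ w : K, z ∈ insert g G → w ≠ 0 ∧ w ∈ P ∧ w⁻¹ ∈ P ∧
      ∃ δ : ι → ℤ, z = w * mo x δ := by
    intro z
    by_cases hz : z ∈ insert g G
    · have h1 : PMon P x z := by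
        rcases hz with rfl | hz
        · exact hpm _ hgm₀
        · exact hpm _ (hGm₀ z hz)
      obtain ⟨w, h2, h3, h4, h5⟩ := h1
      exact ⟨w, fun _ => ⟨h2, h3, h4, h5⟩⟩
    · exact ⟨0, fun h => absurd h hz⟩
  choose w hw using hun
  let E : Set K := (w '' (insert g G) ∪ (fun z => (w z)⁻¹) '' (insert g G)) ∪ H
  have hEf : E.Finite := (((hG.insert g).image _).union ((hG.insert g).image _)).union hH
  have hEP : ∀ e ∈ E, e ∈ P := by
    rintro e ((⟨z, hz, rfl⟩ | ⟨z, hz, rfl⟩) | he)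
    · exact (hw z hz).2.1
    · exact (hw z hz).2.2.1
    · exact hHP e he
  subst hP
  obtain ⟨s, hsA, hs0, hsV, hnear⟩ := near_reg hR ρ hTT hAV₂ hreg hxn hgen hcard hEf hEP
  refine ⟨T' ∪ {s⁻¹}, Set.range x, hT'f.union (Set.finite_singleton _), Set.finite_range _, ?_, ?_,
    ?_⟩
  · rintro z (hz | hz)
    · exact (hT' z hz).1
    · rw [Set.mem_singleton_iff.1 hz]
      exact hsV
  · rintro _ ⟨i, rfl⟩
    exact hxn i
  · intro V' hAV' hX hN
    have hAV₂' : rg ρ (T ∪ T') ≤ V'.toSubring := by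
      rw [← hcl]
      exact cl_le hAV' fun t ht => hX t (Or.inl ht)
    obtain ⟨hreg', hE'⟩ := hnear V' hAV₂' (hX _ (Or.inr rfl)) fun i => hN _ ⟨i, rfl⟩
    have hmon : ∀ z ∈ insert g G, PMon (lo V'.toSubring (rg ρ (T ∪ T'))) x z := by
      intro z hz
      obtain ⟨h2, h3, h4, h5⟩ := hw z hz
      exact ⟨w z, h2, hE' _ (Or.inl (Or.inl ⟨z, hz, rfl⟩)),
        hE' _ (Or.inl (Or.inr ⟨z, hz, rfl⟩)), h5⟩
    exact ⟨ι, inferInstance, x, _, g, hreg', ⟨hgA, hg0, T', hT'f, fun t ht =>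
      ⟨hX t (Or.inl ht), (hT' t ht).2⟩, by rw [hcl]⟩, hmon g (Or.inl rfl),
      fun z hz => hmon z (Or.inr hz), fun z hz => hE' z (Or.inr hz)⟩

end Pool.Agent.V7H82.ZR
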