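import Pool.Agent.V7H82.ZR.Spr
import Pool.Agent.TH188.QS.Bases3
import Pool.Agent.TH188.QS.Cls

/-!
# Regular models of a valuation are regular models of the nearby valuations
-/

set_option autoImplicit false

universe u v

namespace Pool.Agent.V7H82.ZR

open IsLocalRing Pool.Agent.W418.LU2 Pool.Agent.TH188.QS

/-- The `R`-subalgebra generated by `T`. -/
abbrev rg {R K : Type u} [CommRing R] [Field K] (ρ : R →+* K) (T : Set K) : Subring K :=
  Subring.closure ((ρ.range : Set K) ∪ T)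

/-- The data of `GP` for given finite sets. -/
def DA {K : Type u} [Field K] (V : ValuationSubring K) (A : Subring K) (G H : Set K) : Prop :=
  ∃ (ι : Type) (_ : Fintype ι) (x : ι → K) (P : Subring K) (g : K),
    RegP V.toSubring P x ∧ Fg V A P g ∧ PMon P x g ∧ (∀ h ∈ G, PMon P x h) ∧ ∀ h ∈ H, h ∈ P

/-- The local ring at the centre is a localization. -/
theorem lo_atPrime {F : Type u} [Field F] {W B : Subring F} (hW : Loc W) (hB : B ≤ W) :
    ∃ (𝔮 : Ideal B) (_ : 𝔮.IsPrime), (∀ b : B, b ∈ 𝔮 ↔ NU W (b : F)) ∧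
      @IsLocalization.AtPrime _ _ (lo W B) _ (Subring.inclusion (le_lo W B)).toAlgebra 𝔮 _ := by
  set P := lo W B with hP
  have hRP : B ≤ P := le_lo _ _
  let _ : Algebra B P := (Subring.inclusion hRP).toAlgebra
  have hloc : IsLocalRing P := isLocalRing_lo hW hB
  let 𝔭 : Ideal B := (maximalIdeal P).comap (algebraMap B P)
  have hu : ∀ a : B, a ∉ 𝔭 ↔ IsUnit (algebraMap B P a) := by
    intro a
    change ¬ (algebraMap B P a ∈ maximalIdeal P) ↔ _
    rw [mem_maximalIdeal, mem_nonunits_iff, not_not]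
  have hprime : 𝔭.IsPrime := Ideal.IsPrime.comap _
  have hL : IsLocalization.AtPrime P 𝔭 :=
    { map_units := fun y => (hu y.1).1 y.2
      surj := by
        rintro ⟨z, a, ha, b, hb, hb0, hbW, rfl⟩
        refine ⟨(⟨a, ha⟩, ⟨⟨b, hb⟩, ?_⟩), ?_⟩
        · change (⟨b, hb⟩ : B) ∉ 𝔭
          rw [hu, isUnit_lo_iff hB]
          exact ⟨hb0, hbW⟩
        · apply Subtype.ext
          change a * b⁻¹ * b = a
          rw [mul_assoc, inv_mul_cancel₀ hb0, mul_one]
      exists_of_eq := by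
        intro a b h
        refine ⟨1, ?_⟩
        have h1 : a = b := Subtype.ext (congrArg (Subtype.val : P → F) h)
        rw [h1] }
  refine ⟨𝔭, hprime, fun b => ?_, hL⟩
  rw [← not_iff_not, hu, isUnit_lo_iff hB]
  unfold NU
  rw [not_not]
  rfl

/-- Algebras of finite type over base rings are noetherian. -/
theorem noe_rg {R : Type u} [CommRing R] (hR : HJ R) {K : Type u} [Field K] (ρ : R →+* K)
    {T : Set K} (hT : T.Finite) : IsNoetherianRing (rg ρ T) :=
  (main hR (V := ⊤) ρ hT (B := rg ρ T) (fun _ _ => trivial) le_rfl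
    (fun b hb => ⟨b, hb, 1, Subring.one_mem _, one_ne_zero, by
      rw [inv_one]; exact Subring.one_mem _, by rw [inv_one, mul_one]⟩) (Or.inl ⟨0, rfl⟩)).2

/-- The quotients of algebras of finite type. -/
theorem quot_range {R K : Type u} [CommRing R] [Field K] (ρ : R →+* K) {T : Set K} (hT : T.Finite)
    {L : Type u} [Field L] (ψ : rg ρ T →+* L) :
    ∃ (ρ' : R →+* L) (T' : Set L), T'.Finite ∧
      ψ.range = Subring.closure ((ρ'.range : Set L) ∪ T') := by
  classical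
  have hρA : ∀ x : R, ρ x ∈ rg ρ T := fun x => Subring.subset_closure (Or.inl ⟨x, rfl⟩)
  have hTA : ∀ t ∈ T, t ∈ rg ρ T := fun t ht => Subring.subset_closure (Or.inr ht)
  let ρ' : R →+* L := ψ.comp (ρ.codRestrict (rg ρ T) hρA)
  let T' : Set L := {z | ∃ t : rg ρ T, (t : K) ∈ T ∧ z = ψ t}
  have hTfin : Finite T := hT
  have hT'f : T'.Finite := by
    have h1 : T' ⊆ (fun t : T => ψ ⟨t, hTA t t.2⟩) '' Set.univ := by
      rintro _ ⟨t, ht, rfl⟩
      exact ⟨⟨t, ht⟩, trivial, rfl⟩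
    exact ((Set.finite_univ).image _).subset h1
  refine ⟨ρ', T', hT'f, ?_⟩
  apply le_antisymm
  · rintro _ ⟨⟨a, ha⟩, rfl⟩
    induction ha using Subring.closure_induction with
    | mem z hz =>
      rcases hz with ⟨x, rfl⟩ | hz
      · exact Subring.subset_closure (Or.inl ⟨x, rfl⟩)
      · exact Subring.subset_closure (Or.inr ⟨⟨z, hTA z hz⟩, hz, rfl⟩)
    | zero =>
      have h1 : (⟨0, Subring.zero_mem _⟩ : rg ρ T) = 0 := rfl
      rw [h1, map_zero]
      exact Subring.zero_mem _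
    | one =>
      have h1 : (⟨1, Subring.one_mem _⟩ : rg ρ T) = 1 := rfl
      rw [h1, map_one]
      exact Subring.one_mem _
    | add a b ha hb iha ihb =>
      have h1 : (⟨a + b, Subring.add_mem _ ha hb⟩ : rg ρ T) = ⟨a, ha⟩ + ⟨b, hb⟩ := rfl
      rw [h1, map_add]
      exact Subring.add_mem _ iha ihb
    | neg a ha iha =>
      have h1 : (⟨-a, Subring.neg_mem _ ha⟩ : rg ρ T) = -⟨a, ha⟩ := rfl
      rw [h1, map_neg]
      exact Subring.neg_mem _ iha
    | mul a b ha hb iha ihb =>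
      have h1 : (⟨a * b, Subring.mul_mem _ ha hb⟩ : rg ρ T) = ⟨a, ha⟩ * ⟨b, hb⟩ := rfl
      rw [h1, map_mul]
      exact Subring.mul_mem _ iha ihb
  · rw [Subring.closure_le]
    rintro z (⟨x, rfl⟩ | ⟨t, ht, rfl⟩)
    · exact ⟨_, rfl⟩
    · exact ⟨_, rfl⟩

/-- The regular locus near a prime of an algebra of finite type. -/
theorem exists_open {R : Type u} [CommRing R] (hR : HJ R) {K : Type u} [Field K] (ρ : R →+* K)
    {T : Set K} (hT : T.Finite) (𝔭 : Ideal (rg ρ T)) [𝔭.IsPrime] :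
    ∃ h : rg ρ T, h ∉ 𝔭 ∧ ∀ (𝔮 : Ideal (rg ρ T)) [𝔮.IsPrime] (P : Type u) [CommRing P]
      [Algebra (rg ρ T) P] [IsLocalization.AtPrime P 𝔮], 𝔭 ≤ 𝔮 → h ∉ 𝔮 →
        IsRegularLocalRing (P ⧸ 𝔭.map (algebraMap (rg ρ T) P)) := by
  classical
  have hdom : IsDomain (rg ρ T ⧸ 𝔭) := Ideal.Quotient.isDomain 𝔭
  let L := FractionRing (rg ρ T ⧸ 𝔭)
  let _ : Field L := FractionRing.field (rg ρ T ⧸ 𝔭)
  let ψ : rg ρ T →+* L := (algebraMap (rg ρ T ⧸ 𝔭) L).comp (Ideal.Quotient.mk 𝔭)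
  have hker : RingHom.ker ψ = 𝔭 := by
    ext a
    rw [RingHom.mem_ker, RingHom.comp_apply]
    constructor
    · intro h
      exact Ideal.Quotient.eq_zero_iff_mem.1 ((map_eq_zero_iff _
        (IsFractionRing.injective (rg ρ T ⧸ 𝔭) L)).1 h)
    · intro h
      rw [Ideal.Quotient.eq_zero_iff_mem.2 h, map_zero]
  obtain ⟨ρ', T', hT', hrange⟩ := quot_range ρ hT (L := L) ψ
  obtain ⟨S, _, _, _, φ, hφr, hWJ⟩ := hR L ρ' T' hT' (by
    intro z
    rw [← hrange]
    obtain ⟨a, b, hb, rfl⟩ := IsFractionRing.div_surjective (A := rg ρ T ⧸ 𝔭) z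
    obtain ⟨a', rfl⟩ := Ideal.Quotient.mk_surjective a
    obtain ⟨b', rfl⟩ := Ideal.Quotient.mk_surjective b
    refine ⟨ψ a', ⟨a', rfl⟩, ψ b', ⟨b', rfl⟩, ?_, div_eq_mul_inv _ _⟩
    intro h
    have h1 : Ideal.Quotient.mk 𝔭 b' = 0 :=
      (map_eq_zero_iff _ (IsFractionRing.injective (rg ρ T ⧸ 𝔭) L)).1 h
    exact nonZeroDivisors.ne_zero hb h1)
  obtain ⟨h, hh, H⟩ := spread_reg hWJ ψ (by rw [hφr, hrange])
  refine ⟨h, fun h1 => hh ?_, fun 𝔮 _ P _ _ _ h1 h2 => ?_⟩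
  · rw [← hker] at h1
    exact h1
  · have h3 := H 𝔮 P (by rw [hker]; exact h1) h2
    rwa [hker] at h3

end Pool.Agent.V7H82.ZR
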