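import Pool.Agent.TH188.QS.Comp

/-!
# Regular local rings with regular quotients
-/

set_option autoImplicit false

universe u v

namespace Pool.Agent.V7H82.ZR

open IsLocalRing Pool.Agent.W418.LU2 Pool.Agent.TH188.QS

/-- A noetherian local ring `P` is regular if a quotient `P / (x)` by at most `ht (x)` elements is regular; the elements
are then a part of a regular system of parameters. -/
theorem reg_of_quot {P : Type u} [CommRing P] [IsLocalRing P] [IsNoetherianRing P] {ι : Type}
    [Fintype ι] (x : ι → P) (hreg : IsRegularLocalRing (P ⧸ Ideal.span (Set.range x)))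
    (hh : ((Fintype.card ι : ℕ) : ℕ∞) ≤ (Ideal.span (Set.range x)).height) :
    IsRegularLocalRing P ∧ Ind x := by
  classical
  set I := Ideal.span (Set.range x) with hI
  have hdom : IsDomain (P ⧸ I) := Pool.Agent.H379R3.isDomain _
  have hp : I.IsPrime := (Ideal.Quotient.isDomain_iff_prime _).1 hdom
  have hdim := height_add_quot I
  have h0 : Ind (Empty.elim : Empty → P ⧸ I) := ⟨fun i => i.elim, fun c _ i => i.elim⟩
  obtain ⟨m, w, hw, hd⟩ := h0.extend
  rw [Fintype.card_empty, zero_add] at hd
  choose w' hw' using fun i => Ideal.Quotient.mk_surjective (I := I) (w i)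
  have hIm : I ≤ maximalIdeal P := le_maximalIdeal hp.ne_top
  have hspan : Ideal.span (Set.range (Sum.elim x w')) = maximalIdeal P := by
    apply le_antisymm
    · rw [Ideal.span_le]
      rintro _ ⟨i | i, rfl⟩
      · exact hIm (Ideal.subset_span ⟨i, rfl⟩)
      · change w' i ∈ maximalIdeal P
        rw [mem_maximalIdeal, mem_nonunits_iff]
        intro hu
        have h1 : w i ∈ maximalIdeal (P ⧸ I) := by
          rw [← hw]
          exact Ideal.subset_span ⟨Sum.inr i, rfl⟩
        rw [mem_maximalIdeal, mem_nonunits_iff] at h1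
        apply h1
        rw [← hw' i]
        exact hu.map _
    · intro y hy
      have h1 : Ideal.Quotient.mk I y ∈ maximalIdeal (P ⧸ I) := by
        rw [← Pool.Agent.H379R3.map_mk_maximalIdeal]
        exact Ideal.mem_map_of_mem _ hy
      rw [← hw] at h1
      rw [Ideal.mem_span_range_iff_exists_fun] at h1
      obtain ⟨c, hc⟩ := h1
      rw [Fintype.sum_sum_type] at hc
      simp only [Sum.elim_inr, Finset.univ_eq_empty, Finset.sum_empty, zero_add] at hc
      choose c' hc' using fun i => Ideal.Quotient.mk_surjective (I := I) (c (Sum.inr i))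
      have h2 : y - ∑ i, c' i * w' i ∈ I := by
        rw [← Ideal.Quotient.eq_zero_iff_mem, map_sub, map_sum]
        simp only [map_mul, hw', hc']
        rw [hc, sub_self]
      have h3 : I ≤ Ideal.span (Set.range (Sum.elim x w')) := by
        rw [hI, Ideal.span_le]
        rintro _ ⟨i, rfl⟩
        exact Ideal.subset_span ⟨Sum.inl i, rfl⟩
      have h4 : ∑ i, c' i * w' i ∈ Ideal.span (Set.range (Sum.elim x w')) :=
        Ideal.sum_mem _ fun i _ => Ideal.mul_mem_left _ _ (Ideal.subset_span ⟨Sum.inr i, rfl⟩)
      have h5 := Ideal.add_mem _ (h3 h2) h4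
      rwa [sub_add_cancel] at h5
  have hcard : ((Fintype.card (ι ⊕ Fin m) : ℕ) : WithBot ℕ∞) ≤ ringKrullDim P := by
    refine le_trans ?_ hdim
    rw [hd, Fintype.card_sum, Fintype.card_fin, Nat.cast_add]
    refine add_le_add ?_ le_rfl
    exact_mod_cast hh
  have hfr : (maximalIdeal P).spanFinrank ≤ Fintype.card (ι ⊕ Fin m) := by
    rw [← hspan]
    refine (Submodule.spanFinrank_span_le_ncard_of_finite (Set.finite_range _)).trans ?_
    rw [← Set.image_univ]
    refine (Set.ncard_image_le (Set.finite_univ)).trans ?_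
    rw [Set.ncard_univ, Nat.card_eq_fintype_card]
  have hR : IsRegularLocalRing P := by
    apply IsRegularLocalRing.of_spanFinrank_maximalIdeal_le
    refine le_trans ?_ hcard
    exact_mod_cast hfr
  refine ⟨hR, ?_⟩
  have hInd : Ind (Sum.elim x w') := ind_of_span hspan hcard
  exact hInd.comp Sum.inl Sum.inl_injective

/-- The Jacobian criterion for quotients by primes. -/
theorem jac_quot {S : Type u} [CommRing S] [IsRegularRing S] {r : ℕ} {f : Fin r → S}
    {D : Fin r → Derivation ℤ S S} (𝔫 : Ideal S) (hf : ∀ i, f i ∈ 𝔫) (t : S)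
    (ht : ∀ s ∈ 𝔫, t * s ∈ Ideal.span (Set.range f)) (Q : Ideal S) [Q.IsPrime] (hQ : 𝔫 ≤ Q)
    (htQ : t ∉ Q) (hd : (Matrix.of fun i j => D j (f i)).det ∉ Q) :
    IsRegularLocalRing
      (Localization.AtPrime Q ⧸ 𝔫.map (algebraMap S (Localization.AtPrime Q))) := by
  classical
  set SQ := Localization.AtPrime Q with hSQ
  have hreg : IsRegularLocalRing SQ := IsRegularRing.isRegularLocalRing_localization Q
  have hmax : Q.map (algebraMap S SQ) = maximalIdeal SQ := Localization.AtPrime.map_eq_maximalIdeal
  have hfm : ∀ i, algebraMap S SQ (f i) ∈ maximalIdeal SQ := fun i => by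
    rw [← hmax]
    exact Ideal.mem_map_of_mem _ (hQ (hf i))
  have hInd : Ind (fun i => algebraMap S SQ (f i)) := by
    refine ⟨hfm, fun c hc => ?_⟩
    obtain ⟨u, hu⟩ := IsLocalization.exist_integer_multiples_of_finite Q.primeCompl c
    choose a ha using hu
    have h1 : algebraMap S SQ (∑ i, a i * f i) ∈ (Q ^ 2).map (algebraMap S SQ) := by
      rw [Ideal.map_pow, hmax]
      have h2 : algebraMap S SQ (∑ i, a i * f i) =
          algebraMap S SQ u * ∑ i, c i * algebraMap S SQ (f i) := by
        rw [map_sum, Finset.mul_sum]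
        refine Finset.sum_congr rfl fun i _ => ?_
        rw [map_mul, ha i, Algebra.smul_def, mul_assoc]
      rw [h2]
      exact Ideal.mul_mem_left _ _ hc
    rw [IsLocalization.algebraMap_mem_map_algebraMap_iff Q.primeCompl] at h1
    obtain ⟨v, hv, hv2⟩ := h1
    -- the derivations
    have hD : ∀ j, ∀ s ∈ Q ^ 2, D j s ∈ Q := by
      intro j s hs
      rw [pow_two] at hs
      refine Submodule.mul_induction_on hs ?_ ?_
      · intro a ha b hb
        rw [Derivation.leibniz, smul_eq_mul, smul_eq_mul]
        exact Q.add_mem (Q.mul_mem_right _ ha) (Q.mul_mem_right _ hb)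
      · intro a b ha hb
        rw [map_add]
        exact Q.add_mem ha hb
    have h3 : ∀ j, ∑ i, (v * a i) * D j (f i) ∈ Q := by
      intro j
      have h4 := hD j _ hv2
      have h5 : D j (v * ∑ i, a i * f i) = ∑ i, (v * a i) * D j (f i) +
          ∑ i, f i * D j (v * a i) := by
        rw [Finset.mul_sum, map_sum, ← Finset.sum_add_distrib]
        refine Finset.sum_congr rfl fun i _ => ?_
        rw [← mul_assoc, Derivation.leibniz, smul_eq_mul, smul_eq_mul]
      have h6 : ∑ i, f i * D j (v * a i) ∈ Q :=
        Ideal.sum_mem _ fun i _ => Q.mul_mem_right _ (hQ (hf i))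
      rw [h5] at h4
      exact (Ideal.add_mem_iff_left Q h6).1 h4
    set M : Matrix (Fin r) (Fin r) S := Matrix.of fun i j => D j (f i) with hM
    have h4 : ∀ k, M.det * (v * a k) ∈ Q := by
      intro k
      have h5 : M.det * (v * a k) = ∑ j, (∑ i, (v * a i) * D j (f i)) * M.adjugate j k := by
        have h6 : Matrix.vecMul (Matrix.vecMul (fun i => v * a i) M) M.adjugate =
            M.det • (fun i => v * a i) := by
          rw [Matrix.vecMul_vecMul, Matrix.mul_adjugate, Matrix.vecMul_smul, Matrix.vecMul_one]
        have h7 := congrFun h6 k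
        rw [Pi.smul_apply, smul_eq_mul] at h7
        rw [← h7]
        rfl
      rw [h5]
      exact Ideal.sum_mem _ fun j _ => Q.mul_mem_right _ (h3 j)
    intro k
    have hQp : Q.IsPrime := inferInstance
    have h5 : a k ∈ Q := by
      rcases hQp.mem_or_mem (h4 k) with h | h
      · exact absurd h hd
      · exact (hQp.mem_or_mem h).resolve_left hv
    have h6 : algebraMap S SQ u * c k ∈ maximalIdeal SQ := by
      rw [← Algebra.smul_def, ← ha k, ← hmax]
      exact Ideal.mem_map_of_mem _ h5
    have h7 : IsUnit (algebraMap S SQ u) := IsLocalization.map_units SQ u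
    exact (Ideal.unit_mul_mem_iff_mem _ h7).1 h6
  have hspan : 𝔫.map (algebraMap S SQ) = Ideal.span (Set.range fun i => algebraMap S SQ (f i)) := by
    apply le_antisymm
    · rw [Ideal.map_le_iff_le_comap]
      intro s hs
      rw [Ideal.mem_comap]
      have h1 : algebraMap S SQ t * algebraMap S SQ s ∈
          Ideal.span (Set.range fun i => algebraMap S SQ (f i)) := by
        rw [← map_mul]
        have h2 := Ideal.mem_map_of_mem (algebraMap S SQ) (ht s hs)
        rw [Ideal.map_span, ← Set.range_comp] at h2
        exact h2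
      have h7 : IsUnit (algebraMap S SQ t) :=
        IsLocalization.map_units SQ (⟨t, htQ⟩ : Q.primeCompl)
      exact (Ideal.unit_mul_mem_iff_mem _ h7).1 h1
    · rw [Ideal.span_le]
      rintro _ ⟨i, rfl⟩
      exact Ideal.mem_map_of_mem _ (hf i)
  rw [hspan]
  exact hInd.regular

end Pool.Agent.V7H82.ZR
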