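import Pool.Agent.V7H82.ZR.Quot
import Pool.Agent.TH188.QS.Fin

/-!
# The regular locus of quotients of regular rings near a prime
-/

set_option autoImplicit false

universe u v

namespace Pool.Agent.V7H82.ZR

open IsLocalRing Pool.Agent.W418.LU2 Pool.Agent.TH188.QS

/-- A common denominator for the kernel. -/
lemma common_t {S L : Type u} [CommRing S] [IsNoetherianRing S] [Field L] (φ : S →+* L)
    (J : Ideal S) (h : ∀ s, φ s = 0 → ∃ t, φ t ≠ 0 ∧ t * s ∈ J) :
    ∃ t, φ t ≠ 0 ∧ ∀ s, φ s = 0 → t * s ∈ J := by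
  classical
  obtain ⟨Z, hZ⟩ := (IsNoetherian.noetherian (RingHom.ker φ) : (RingHom.ker φ).FG)
  have hZ' : Ideal.span (Z : Set S) = RingHom.ker φ := hZ
  have hZk : ∀ z ∈ Z, φ z = 0 := fun z hz => by
    have h1 : z ∈ RingHom.ker φ := by rw [← hZ']; exact Ideal.subset_span hz
    exact h1
  have hch : ∀ z : S, ∃ t, φ t ≠ 0 ∧ (z ∈ Z → t * z ∈ J) := by
    intro z
    by_cases hz : z ∈ Z
    · obtain ⟨t, h1, h2⟩ := h z (hZk z hz)
      exact ⟨t, h1, fun _ => h2⟩
    · exact ⟨1, by rw [map_one]; exact one_ne_zero, fun h => absurd h hz⟩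
  choose t ht htz using hch
  refine ⟨∏ z ∈ Z, t z, ?_, fun s hs => ?_⟩
  · rw [map_prod]
    exact Finset.prod_ne_zero_iff.2 fun z _ => ht z
  · have h1 : s ∈ Ideal.span (Z : Set S) := by rw [hZ']; exact hs
    induction h1 using Submodule.span_induction with
    | mem z hz =>
      rw [← Finset.prod_erase_mul _ _ hz, mul_assoc]
      exact J.mul_mem_left _ (htz z hz)
    | zero => rw [mul_zero]; exact J.zero_mem
    | add a b ha hb iha ihb =>
      rw [mul_add]
      have h2 : ∀ x ∈ Submodule.span S (Z : Set S), φ x = 0 := fun x hx => by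
        have h3 : x ∈ RingHom.ker φ := by rw [← hZ']; exact hx
        exact h3
      exact J.add_mem (iha (h2 a ha)) (ihb (h2 b hb))
    | smul c a ha iha =>
      have h2 : φ a = 0 := by
        have h3 : a ∈ RingHom.ker φ := by rw [← hZ']; exact ha
        exact h3
      rw [smul_eq_mul, mul_left_comm]
      exact J.mul_mem_left _ (iha h2)

/-- Let `ψ : A → L` have the same range as `φ`, which satisfies the weak Jacobian condition. The quotients by `ker ψ` of
the localizations of `A` at the primes which contain `ker ψ` and do not contain `h` are regular. -/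
theorem spread_reg {S L A : Type u} [CommRing S] [IsRegularRing S] [Field L] [CommRing A]
    {φ : S →+* L} (hφ : WJ φ) (ψ : A →+* L) (hr : φ.range = ψ.range) :
    ∃ h : A, ψ h ≠ 0 ∧ ∀ (𝔮 : Ideal A) [𝔮.IsPrime] (P : Type u) [CommRing P] [Algebra A P]
      [IsLocalization.AtPrime P 𝔮], RingHom.ker ψ ≤ 𝔮 → h ∉ 𝔮 →
        IsRegularLocalRing (P ⧸ (RingHom.ker ψ).map (algebraMap A P)) := by
  classical
  obtain ⟨r, f, D, hf, hgen, hdet⟩ := hφ
  obtain ⟨t, ht, htk⟩ := common_t φ _ hgen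
  set Δ : S := (Matrix.of fun i j => D j (f i)).det with hΔ
  have hΔφ : φ Δ ≠ 0 := by
    have h1 : φ Δ = (Matrix.of fun i j => φ (D j (f i))).det := by
      rw [hΔ, RingHom.map_det]
      rfl
    rw [h1]
    exact hdet
  have hex : φ (t * Δ) ∈ ψ.range := by rw [← hr]; exact ⟨_, rfl⟩
  obtain ⟨h, hh⟩ := hex
  refine ⟨h, by rw [hh, map_mul]; exact mul_ne_zero ht hΔφ, ?_⟩
  intro 𝔮 h𝔮 P _ _ _ hk hh𝔮
  -- the prime of `S`
  let ψ' : A →+* ψ.range := ψ.rangeRestrict
  have hψ's : Function.Surjective ψ' := ψ.rangeRestrict_surjective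
  have hkψ' : RingHom.ker ψ' = RingHom.ker ψ := by
    ext a
    rw [RingHom.mem_ker, RingHom.mem_ker, Subtype.ext_iff]
    rfl
  let φ' : S →+* ψ.range := φ.codRestrict ψ.range fun s => by rw [← hr]; exact ⟨s, rfl⟩
  have hφ's : Function.Surjective φ' := by
    rintro ⟨z, hz⟩
    rw [← hr] at hz
    obtain ⟨s, rfl⟩ := hz
    exact ⟨s, rfl⟩
  let 𝔮b : Ideal ψ.range := 𝔮.map ψ'
  have h𝔮b : 𝔮b.IsPrime := Ideal.map_isPrime_of_surjective hψ's (by rw [hkψ']; exact hk)
  have hmem : ∀ a, ψ' a ∈ 𝔮b ↔ a ∈ 𝔮 := by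
    intro a
    constructor
    · intro ha
      obtain ⟨b, hb, hab⟩ := (Ideal.mem_map_iff_of_surjective ψ' hψ's).1 ha
      have h1 : a - b ∈ RingHom.ker ψ := by
        rw [← hkψ', RingHom.mem_ker, map_sub, hab, sub_self]
      have h2 := 𝔮.add_mem (hk h1) hb
      rwa [sub_add_cancel] at h2
    · intro ha
      exact Ideal.mem_map_of_mem _ ha
  let Q : Ideal S := 𝔮b.comap φ'
  have hQ : Q.IsPrime := Ideal.IsPrime.comap _
  have hkQ : RingHom.ker φ ≤ Q := by
    intro s hs
    have h1 : φ' s = 0 := Subtype.ext hs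
    change φ' s ∈ 𝔮b
    rw [h1]
    exact 𝔮b.zero_mem
  have htΔ : t * Δ ∉ Q := by
    intro h1
    apply hh𝔮
    rw [← hmem]
    have h2 : ψ' h = φ' (t * Δ) := Subtype.ext hh
    rw [h2]
    exact h1
  have htQ : t ∉ Q := fun h1 => htΔ (Q.mul_mem_right _ h1)
  have hΔQ : Δ ∉ Q := fun h1 => htΔ (Q.mul_mem_left _ h1)
  have hreg := jac_quot (RingHom.ker φ) (f := f) (D := D) hf t (fun s hs => htk s hs) Q hkQ htQ hΔQ
  -- the comparison
  set C := P ⧸ (RingHom.ker ψ).map (algebraMap A P) with hC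
  let η₀ : A →+* C := (Ideal.Quotient.mk _).comp (algebraMap A P)
  have hη₀ : ∀ a ∈ RingHom.ker ψ', η₀ a = 0 := by
    intro a ha
    rw [hkψ'] at ha
    exact Ideal.Quotient.eq_zero_iff_mem.2 (Ideal.mem_map_of_mem _ ha)
  let η : ψ.range →+* C := (RingHom.liftOfSurjective ψ' hψ's) ⟨η₀, hη₀⟩
  have hη : ∀ a, η (ψ' a) = η₀ a := fun a => RingHom.liftOfRightInverse_comp_apply _ _ _ _ _
  have hun : ∀ s : Q.primeCompl, IsUnit ((η.comp φ') s) := by
    rintro ⟨s, hs⟩
    obtain ⟨a, ha⟩ := hψ's (φ' s)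
    have h1 : a ∉ 𝔮 := by
      rw [← hmem, ha]
      exact hs
    change IsUnit (η (φ' s))
    rw [← ha, hη]
    exact (IsLocalization.map_units P (⟨a, h1⟩ : 𝔮.primeCompl)).map (Ideal.Quotient.mk _)
  let θ : Localization.AtPrime Q →+* C := IsLocalization.lift (M := Q.primeCompl) hun
  have hθ : ∀ s, θ (algebraMap S _ s) = η (φ' s) := fun s => IsLocalization.lift_eq _ _
  have hθs : Function.Surjective θ := by
    intro c
    obtain ⟨p, rfl⟩ := Ideal.Quotient.mk_surjective c
    obtain ⟨⟨a, b⟩, hab⟩ := IsLocalization.surj 𝔮.primeCompl p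
    obtain ⟨s, hs⟩ := hφ's (ψ' a)
    obtain ⟨v, hv⟩ := hφ's (ψ' b)
    have hvQ : v ∈ Q.primeCompl := by
      intro h1
      have h2 : φ' v ∈ 𝔮b := h1
      rw [hv, hmem] at h2
      exact b.2 h2
    refine ⟨IsLocalization.mk' _ s ⟨v, hvQ⟩, ?_⟩
    have hvu : IsUnit (θ (algebraMap S _ v)) := by
      rw [hθ]
      exact hun ⟨v, hvQ⟩
    apply hvu.mul_right_cancel
    rw [← map_mul, IsLocalization.mk'_spec _ s (⟨v, hvQ⟩ : Q.primeCompl), hθ, hθ, hs, hv, hη, hη]
    change Ideal.Quotient.mk _ (algebraMap A P a) = Ideal.Quotient.mk _ p *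
      Ideal.Quotient.mk _ (algebraMap A P b)
    rw [← map_mul, hab]
  have hker : RingHom.ker θ = (RingHom.ker φ).map (algebraMap S (Localization.AtPrime Q)) := by
    apply le_antisymm
    · intro z hz
      obtain ⟨⟨s, v⟩, hsv⟩ := IsLocalization.surj Q.primeCompl z
      have h1 : η (φ' s) = 0 := by
        rw [← hθ, ← hsv, map_mul, RingHom.mem_ker.1 hz, zero_mul]
      obtain ⟨a, ha⟩ := hψ's (φ' s)
      rw [← ha, hη] at h1
      have h2 : algebraMap A P a ∈ (RingHom.ker ψ).map (algebraMap A P) :=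
        Ideal.Quotient.eq_zero_iff_mem.1 h1
      rw [IsLocalization.algebraMap_mem_map_algebraMap_iff 𝔮.primeCompl] at h2
      obtain ⟨b, hb, hba⟩ := h2
      have h3 : ψ a = 0 := by
        rw [RingHom.mem_ker, map_mul] at hba
        rcases mul_eq_zero.1 hba with h4 | h4
        · exact absurd (hk (show b ∈ RingHom.ker ψ from h4)) hb
        · exact h4
      have h4 : φ s = 0 := by
        have h5 := congrArg Subtype.val ha
        have h6 : ψ a = φ s := h5
        rw [← h6]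
        exact h3
      have h5 : algebraMap S (Localization.AtPrime Q) v * z ∈
          (RingHom.ker φ).map (algebraMap S (Localization.AtPrime Q)) := by
        rw [mul_comm, hsv]
        exact Ideal.mem_map_of_mem _ h4
      exact (Ideal.unit_mul_mem_iff_mem _ (IsLocalization.map_units _ v)).1 h5
    · rw [Ideal.map_le_iff_le_comap]
      intro s hs
      rw [Ideal.mem_comap, RingHom.mem_ker, hθ]
      have h1 : φ' s = 0 := Subtype.ext hs
      rw [h1, map_zero]
  have h1 : IsRegularLocalRing (Localization.AtPrime Q ⧸ RingHom.ker θ) := by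
    rw [hker]
    exact hreg
  exact IsRegularLocalRing.of_ringEquiv (RingHom.quotientKerEquivOfSurjective hθs)

end Pool.Agent.V7H82.ZR
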